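import Pool.Agent.helper64.D2.SpecC

/-!
# Project dc: (MP_5823cb_al, Diff^2_+(S^1)): the circle part (start: `CORE_stmt`, result: `RES_stmt`)

Rules: see `SpecS.lean` (here `import Pool.Agent.helper64.D2.SpecF`, `open Filter Topology`, `open scoped commutatorElement`).
For `g : CircleDeg1Liftˣ` the map is `⇑(g : CircleDeg1Lift)` (written `gg g`); `gg (g * h) x = gg g (gg h x)`; `G2` is the group of `C^2` lifts with `C^2` inverse.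
-/

set_option autoImplicit false

open Filter Topology
open scoped commutatorElement

namespace Pool.Agent.helper64.D2

/-- The map of a lift. -/
def gg (g : CircleDeg1Liftˣ) : ℝ → ℝ := ⇑(g : CircleDeg1Lift)

/-- The support of `g` is contained in `[α,β] + ℤ`. -/
def SIn (g : CircleDeg1Liftˣ) (α β : ℝ) : Prop := ∀ x : ℝ, (∀ n : ℤ, x + n ∉ Set.Icc α β) → gg g x = x

/-- The normal closure of `f` and of the integer translations. -/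
def NC (f : CircleDeg1Liftˣ) : Subgroup CircleDeg1Liftˣ := Subgroup.closure
  ({x : CircleDeg1Liftˣ | ∃ h : CircleDeg1Liftˣ, ContDiff ℝ 2 ⇑(h : CircleDeg1Lift) ∧ ContDiff ℝ 2 ⇑((h⁻¹ : CircleDeg1Liftˣ) : CircleDeg1Lift) ∧
      x = h * f * h⁻¹} ∪
    Set.range (fun n : ℤ => CircleDeg1Lift.translate (Multiplicative.ofAdd (n : ℝ))))

/-- **GGB** (short/medium). Elementary facts on lifts. uses: nothing.
Proof. `Units.ext`, `CircleDeg1Lift.ext`; `CircleDeg1Lift.map_add_int`; monotone and injective. `CircleDeg1Lift.translate` of `t` is `x ↦ t + x` (`CircleDeg1Lift.translate_apply`), of class `C^2`, and its inverse is the translation of `-t`; integer translations commute with every lift. -/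
def GGB_stmt : Prop := (∀ g h : CircleDeg1Liftˣ, (∀ x, gg g x = gg h x) → g = h) ∧ (∀ (g h : CircleDeg1Liftˣ) (x : ℝ), gg (g * h) x = gg g (gg h x)) ∧
  (∀ x, gg 1 x = x) ∧ (∀ (g : CircleDeg1Liftˣ) (x : ℝ), gg g⁻¹ (gg g x) = x ∧ gg g (gg g⁻¹ x) = x) ∧ (∀ (g : CircleDeg1Liftˣ) (x : ℝ) (n : ℤ), gg g (x + n) = gg g x + n) ∧
  (∀ g : CircleDeg1Liftˣ, StrictMono (gg g)) ∧
  (∀ t : ℝ, (CircleDeg1Lift.translate (Multiplicative.ofAdd t)) ∈ G2 ∧ ∀ x, gg (CircleDeg1Lift.translate (Multiplicative.ofAdd t)) x = x + t) ∧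
  ∀ (n : ℤ) (g : CircleDeg1Liftˣ), CircleDeg1Lift.translate (Multiplicative.ofAdd (n : ℝ)) * g = g * CircleDeg1Lift.translate (Multiplicative.ofAdd (n : ℝ))

/-- **MKL** (medium). Construction of lifts. uses: nothing.
Proof. `F` is strictly increasing and continuous, `F (x + n) = F x + n`, so it is unbounded above and below and a bijection; `F` and its inverse `F⁻¹` (monotone, degree one) are lifts, inverse to each other. `F⁻¹` is `C^2`: `(F⁻¹)' = 1/F'(F⁻¹)` (`HasDerivAt.of_local_left_inverse`, continuity of `F⁻¹` from `StrictMono.orderIso` /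
`OrderIso.continuous`), which is continuous, so `F⁻¹` is `C^1`, and then `1/F'(F⁻¹)` is `C^1` (`contDiff_succ_iff_deriv` or `contDiff_one_iff_deriv`); or use `OpenPartialHomeomorph.contDiffAt_symm_deriv`. -/
def MKL_stmt : Prop := ∀ F : ℝ → ℝ, ContDiff ℝ 2 F → (∀ x, F (x + 1) = F x + 1) → (∀ x, 0 < deriv F x) → ∃ g ∈ G2, ∀ x, gg g x = F x

/-- **GDB** (medium). Bounds of the derivatives. uses: GGB.
Proof. `gg g⁻¹ (gg g x) = x` gives `(g⁻¹)'(g x) g'(x) = 1`, and `g' ≥ 0` (monotone), so `g' > 0`. `g'` and `g''` are continuous and of period one, so they take their bounds on `[0,1]` (`IsCompact.exists_isMinOn`). Derivatives of the inverse: `y = gg g⁻¹ x`, `(g⁻¹)' = 1/g'(y)`, `(g⁻¹)'' = - g''(y)/g'(y)^3`. -/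
def GDB_stmt : Prop := ∀ g ∈ G2, ContDiff ℝ 2 (gg g) ∧ (∀ x, deriv (gg g) (x + 1) = deriv (gg g) x ∧ d2 (gg g) (x + 1) = d2 (gg g) x) ∧
  (∃ c C : ℝ, 0 < c ∧ c ≤ 1 ∧ 1 ≤ C ∧ ∀ x, c ≤ deriv (gg g) x ∧ deriv (gg g) x ≤ C ∧ |d2 (gg g) x| ≤ C ∧ |gg g x - x| ≤ C) ∧
  ∀ x, deriv (gg g⁻¹) x = 1 / deriv (gg g) (gg g⁻¹ x) ∧ d2 (gg g⁻¹) x = - d2 (gg g) (gg g⁻¹ x) / deriv (gg g) (gg g⁻¹ x) ^ 3

/-- **MLA** (medium). The class `ML`. uses: nothing.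
Proof. (1) `|u x - u y|^2 ≤ C^2 t^2` and `t^2 (log (log (1/t)))^3 → 0` as `t → 0+` (`0 ≤ log log (1/t) ≤ 1/t^(1/3)`-type bound, e.g. `Real.log x ≤ x`, `log (log (1/t)) ≤ 2 (1/t)^(1/2)`; in fact `Real.log_le_sub_one_of_pos` twice gives `log (log (1/t)) ≤ log (1/t) ≤ 3 (1/t)^(1/3)`). (2) `|a+b|^2 ≤ 2a^2 + 2b^2` (for `t < exp(-3)`
the factor `(log log (1/t))^3` is nonnegative). (3) `u x v x - u y v y = u x (v x - v y) + v y (u x - u y)`. (4) `|φ x - φ y| ≤ C |x - y| ≤ C t`, `C ≥ 1`; the hypothesis for `C t`, and `log (1/t) ≤ (log (1/(C t)))^2` for `t` small (`log (1/t) = log (1/(Ct)) + log C`), so `log log (1/t) ≤ 2 log log (1/(Ct))`, factor `8`.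
(5) functions which agree: clear. -/
def MLA_stmt : Prop := (∀ (u : ℝ → ℝ) (C : ℝ), (∀ x y, |u x - u y| ≤ C * |x - y|) → ML u) ∧ (∀ u v : ℝ → ℝ, ML u → ML v → ML (fun x => u x + v x)) ∧
  (∀ (u v : ℝ → ℝ) (A : ℝ), ML u → ML v → (∀ x, |u x| ≤ A ∧ |v x| ≤ A) → ML (fun x => u x * v x)) ∧
  ∀ (u φ : ℝ → ℝ) (C : ℝ), ML u → (∀ x y, |φ x - φ y| ≤ C * |x - y|) → ML (fun x => u (φ x))

/-- **PIE** (medium/LONG). A quotient. uses: GGB, GDB, MLA.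
Proof. `g = f1 f0⁻¹ ∈ G2`, `φ = gg f0⁻¹`, `D = gg f1 - gg f0`: `gg g x = x + D (φ x)`. Support: if `gg g x ≠ x` then `D (φ x) ≠ 0`, `φ x + n ∈ [α,β]`, so `x + n = gg f0 (φ x + n) ∈ [gg f0 α, gg f0 β]`. `φ' = 1/f0'(φ)`, `φ'' = - f0''(φ)/f0'(φ)^3` (GDB), `(D ∘ φ)'' = D''(φ) φ'^2 + D'(φ) φ''`, so `|g''| ≤ e (1/c^2 + C/c^3)`.
`ML`: `D'' = f1'' - f0''` is `ML` and bounded, `φ` is Lipschitz, so `D''(φ)` is `ML`; `φ'` and `D'(φ)` are Lipschitz and bounded (their derivatives are bounded), `1/f0'(φ)^3` is Lipschitz and bounded, `f0''(φ)` is `ML` and bounded; MLA. -/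
def PIE_stmt : Prop := ∀ f0 ∈ G2, ∀ f1 ∈ G2, ∀ α β c C e : ℝ, (∀ x : ℝ, (∀ n : ℤ, x + n ∉ Set.Icc α β) → gg f1 x = gg f0 x) → 0 < c →
  (∀ x, c ≤ deriv (gg f0) x ∧ |d2 (gg f0) x| ≤ C) → (∀ x, |deriv (gg f1) x - deriv (gg f0) x| ≤ e ∧ |d2 (gg f1) x - d2 (gg f0) x| ≤ e) →
  f1 * f0⁻¹ ∈ G2 ∧ SIn (f1 * f0⁻¹) (gg f0 α) (gg f0 β) ∧ (∀ x, |d2 (gg (f1 * f0⁻¹)) x| ≤ e * (1 / c ^ 2 + C / c ^ 3)) ∧
    (ML (d2 (gg f0)) → ML (d2 (gg f1)) → ML (d2 (gg (f1 * f0⁻¹))))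

/-- **PUN** (medium). A periodic partition of unity. uses: nothing.
Proof. `σ x = Real.smoothTransition (cos (2πx) - cos (2π/N))`: smooth, period one, nonnegative, positive exactly where `cos (2πx) > cos (2π/N)`; if `x + n ∉ [-1/N,1/N]` for all integers `n` then `cos (2πx) ≤ cos (2π/N)` (take `n` with `|x + n| ≤ 1/2`, `cos` decreasing on `[0,π]`), so `σ x = 0`. `w_k x = σ (x - k/N)`, `S = Σ_(k<N) w_k > 0`: for every `x`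
there are `k < N` and an integer `n` with `|x - k/N - n| ≤ 1/(2N)` (or `< 1/N`). `χ_k = w_k/S`. The derivatives are continuous and periodic, so bounded; take `A` the maximum over `k < N`; put `χ_k = 0` for `k ≥ N`. -/
def PUN_stmt : Prop := ∀ N : ℕ, 3 ≤ N → ∃ (χ : ℕ → ℝ → ℝ) (A : ℝ), 1 ≤ A ∧ (∀ k, ContDiff ℝ 3 (χ k)) ∧ (∀ k x, χ k (x + 1) = χ k x ∧ 0 ≤ χ k x) ∧
  (∀ x, (∑ k ∈ Finset.range N, χ k x) = 1) ∧ (∀ (k : ℕ) (x : ℝ), (∀ n : ℤ, x + n ∉ Set.Icc ((k : ℝ) / N - 1 / N) ((k : ℝ) / N + 1 / N)) → χ k x = 0) ∧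
  ∀ k x, |χ k x| ≤ A ∧ |deriv (χ k) x| ≤ A ∧ |d2 (χ k) x| ≤ A ∧ |deriv (d2 (χ k)) x| ≤ A

/-- **FRG** (LONG). Fragmentation. uses: GGB, MKL, GDB, MLA, PIE, PUN.
Proof. `X = gg g - id` is `C^2`, of period one; `c ≤ g' ≤ C`, `|X|, |X'|, |X''| ≤ C` (after enlarging `C ≥ 1`; `c ≤ 1`). `N ≥ 200 C`, `χ_k`, `A` from PUN. For `n` large (`n ≥ 8 N A C/c` etc.) and `j ≤ nN` let `τ_j = (⌊j/N⌋ + Σ_(l < j mod N) χ_l)/n`: `C^3`, period one, values in `[0,1]`, `τ_0 = 0`, `τ_(nN) = 1`, `τ_(j+1) - τ_j = χ_(j mod N)/n`, `|τ_j'|, |τ_j''|, |τ_j'''| ≤ NA/n`.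
`F_j = id + τ_j X`: `F_j' = 1 + τ_j X' + τ_j' X ≥ c - NAC/n ≥ c/2` (`1 + τ X'` is between `1` and `g' = 1 + X'`), `F_j' ≤ 2C`-type bound (say `≤ 3C`), `|F_j''| = |τX'' + 2τ'X' + τ''X| ≤ 2C`; MKL gives `f_j ∈ G2`, `f_0 = 1`, `f_(nN) = g`. With `D = χX/n`: `|D'| ≤ 2AC/n`, `|D''| ≤ 4AC/n`. PIE for `f_j, f_(j+1)`: `e (4/c^2 + 2C · 8/c^3) ≤ ε` for `n`
large; the support is in `[f_j(k/N - 1/N), f_j(k/N + 1/N)]`, of length `≤ 3C · 2/N ≤ 1/50` (take `N ≥ 300 C`). `ML (d2 (gg g))` implies `ML` of `F_j'' = τX'' + 2τ'X' + τ''X` (`X'' = g''`; the other factors are bounded and Lipschitz). `g = ∏_(j from nN-1 down to 0) f_(j+1) f_j⁻¹` (telescoping list product). -/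
def FRG_stmt : Prop := ∀ g ∈ G2, ∀ ε : ℝ, 0 < ε → ∃ l : List CircleDeg1Liftˣ, l.prod = g ∧
  ∀ h ∈ l, h ∈ G2 ∧ (∃ α : ℝ, SIn h α (α + 1 / 50)) ∧ (∀ x, |d2 (gg h) x| ≤ ε) ∧ (ML (d2 (gg g)) → ML (d2 (gg h)))

/-- **CHA** (medium/LONG). The chart, analysis. uses: BAS, MLA.
Proof. `y = kk (2+v)` is smooth for `v > -2`, `y ∈ [3/10,42/100]`-ish for `v ∈ [1/20, 97/100]`; `uu` is smooth on `(-∞,1)`. Let `X v = uu (y + Y y) - uu y` for `v ∈ (0,1)`, `y = kk (2+v)`, and `0` otherwise. `Y = 0` outside `[35/100,37/100]` and `kk (2+v) ∈ [35/100,37/100]` only for `v ∈ [36/100, 52/100]` (`1/(65/100)^2 - 2 = 0.3668…`, `1/(63/100)^2 - 2 = 0.5195…`), so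
`X = 0` outside `[34/100,56/100]`, and near every point `X` is either `0` or given by the formula, so `C^2`. `|Y''| ≤ ε`, `|Y'| ≤ ε/50`, `|Y| ≤ ε/2500` (BAS). For `y ∈ [35/100,37/100]`, `Ψ(y) = uu(y+Y) - uu(y)`: `uu' = 2(1-y)^(-3)`, `uu'' = 6 (1-y)^(-4)`, `uu''' = 24 (1-y)^(-5)` are `≤ 10, 50, 350` on `[3/10,42/100]`, so `|Ψ'| ≤ ε`,
`|Ψ''| ≤ 350 |Y| 2 + 50 (2|Y'| + Y'^2) + 10 |Y''| ≤ 20 ε`; `X'' = Ψ''(y) y'^2 + Ψ'(y) y''`, `y' = (2+v)^(-3/2)/2`, `y'' = -(3/4)(2+v)^(-5/2)`: `|X''| ≤ 20 ε`. `ML`: `Ψ'' = uu''(y+Y)(1+Y')^2 + uu'(y+Y) Y'' - uu''(y)`; all factors except `Y''` are bounded and Lipschitz on `[3/10,42/100]`; since `X''` vanishes outside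
`[34/100,56/100]`, multiply by a cutoff or replace `v` by its projection to `[1/5,7/10]` (`1`-Lipschitz, `MLA` (4)) to have globally defined bounded Lipschitz factors: `X'' (v) = A(v) + B(v) Y''(kk (2 + proj v))` with `A`, `B` bounded Lipschitz. -/
def CHA_stmt : Prop := ∀ (Y : ℝ → ℝ) (ε : ℝ), ContDiff ℝ 2 Y → (∀ y, y ∉ Set.Icc (35 / 100 : ℝ) (37 / 100) → Y y = 0) → (∀ y, |d2 Y y| ≤ ε) → 0 ≤ ε → ε ≤ 1 / 10 →
  ∃ X : ℝ → ℝ, ContDiff ℝ 2 X ∧ (∀ v, v ∉ Set.Icc (34 / 100 : ℝ) (56 / 100) → X v = 0) ∧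
    (∀ v ∈ Set.Icc (0 : ℝ) 1, 2 + v + X v = uu (kk (2 + v) + Y (kk (2 + v)))) ∧ (∀ v, |d2 X v| ≤ 20 * ε) ∧ (ML (d2 Y) → ML (d2 X))

/-- **CHT** (medium/LONG). The chart, group. uses: GGB, GDB, CHA, DIF, BAS.
Proof. `Y y = gg g y - y` for `y ∈ [0,1]` and `0` outside (near `0` and `1`, and outside `[35/100,37/100] + ℤ`, `gg g = id`): `C^2`, supported in `[35/100,37/100]`, `Y'' = g''` on `(0,1)`, `|Y''| ≤ ε`, `ML (d2 Y)` (for `|x - y| ≤ 1/10` both points are in `(0,1)` or `Y'' = g''·1` vanishes at one of them: if `x ∈ (0,1)` and `y ∉ (0,1)` then `d2 Y y = 0 = d2 Y x` or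
`|x-y| > 1/10`). `ε1 = min (e0/20) (1/100)`. X from CHA, `|X'| ≤ 1/2` (BAS), `f = id + X ∈ DD` (DIF). `Th (Pi.mulSingle 2 f) = g`: for `x` with `y = fract x`, `u = uu y ≥ 1`: if `⌊u⌋₊ = 2`, `u = 2 + v`, `v ∈ [0,1)`, `slot = 2 + v + X v = uu (y + Y y)` and `kk` of it is `y + Y y = gg g y` (which is in `[0,1)`); if `⌊u⌋₊ ≠ 2` then
`slot = u`, `kk u = y` and `y ∉ [35/100,37/100]` because `uu y ∈ [2,3)` for `y ∈ [35/100,37/100]`, so `gg g y = y`. `thf = ⌊x⌋ + gg g (fract x) = gg g x`. -/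
def CHT_stmt : Prop := ∀ e0 : ℝ, 0 < e0 → ∃ ε1 : ℝ, 0 < ε1 ∧ ∀ g ∈ G2, SIn g (35 / 100) (37 / 100) → (∀ x, |d2 (gg g) x| ≤ ε1) →
  ∃ (f : DD) (X : ℝ → ℝ), Rep f X ∧ ContDiff ℝ 2 X ∧ (∀ x, x ∉ Set.Icc (34 / 100 : ℝ) (56 / 100) → X x = 0) ∧ (∀ x, |d2 X x| ≤ e0) ∧
    (ML (d2 (gg g)) → ML (d2 X)) ∧ Th (Pi.mulSingle 2 f) = g

/-- **COM** (medium). uses: CORE, FRG, CHT, GGB, MLA.
Proof. `ε = min ε1 …` from CHT for the `e0` of CORE. FRG: `g` is a product of `h ∈ G2` with support in `[α,α+1/50] + ℤ`, `|h''| ≤ ε1`, `ML (d2 h)`. With the translation `t` by `35/100 - α` (in `G2`): `k = t h t⁻¹`, `gg k x = gg h (x - s) + s`, has support in `[35/100,37/100] + ℤ`, the same bound and `ML`; CHT and CORE give `k ∈ ⁅G2,G2⁆`; this subgroup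
is invariant under conjugation by elements of `G2` (`t⁻¹ ⁅a,b⁆ t = ⁅t⁻¹at, t⁻¹bt⁆`, closure induction), so `h ∈ ⁅G2,G2⁆`. -/
def COM_stmt : Prop := ∀ g ∈ G2, ML (d2 (gg g)) → g ∈ ⁅G2, G2⁆

/-- **NCB** (short). `NC f` is normalized by `G2`. uses: GGB.
Proof. Closure induction; `h (k f k⁻¹) h⁻¹ = (hk) f (hk)⁻¹`; integer translations are central. -/
def NCB_stmt : Prop := ∀ f : CircleDeg1Liftˣ, f ∈ NC f ∧ ∀ h ∈ G2, ∀ x ∈ NC f, h * x * h⁻¹ ∈ NC f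

/-- **NR1** (medium). The commutator trick. uses: NCB, GGB.
Proof. Let `A = [α,β] + ℤ = {x | ∃ n : ℤ, x + n ∈ [α,β]}`. `a`, `b` fix all points outside `A`, so (bijections) map `A` to `A`. `c' = f a⁻¹ f⁻¹` fixes all points of `A`: if `x ∈ A` then `f⁻¹ x ∉ A` (otherwise `f⁻¹ x = z - n`, `z ∈ [α,β]`, `x = f z - n`, `x + m ∈ [α,β]`, so `f z = y + integer`, `y ∈ [α,β]`). Hence `c' b = b c'`: for `x ∈ A` both are `b x`;
for `x ∉ A`: `b x = x`, and `c' x ∉ A` (otherwise `c' (c' x) = c' x`, `c' x = x`), so `b (c' x) = c' x`. With `c = a f a⁻¹ f⁻¹ = a c' ∈ NC f`: `c b c⁻¹ b⁻¹ = a c' b c'⁻¹ a⁻¹ b⁻¹ = ⁅a,b⁆`, and `c (b c⁻¹ b⁻¹) ∈ NC f`. -/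
def NR1_stmt : Prop := ∀ (f a b : CircleDeg1Liftˣ) (α β : ℝ), a ∈ G2 → b ∈ G2 → SIn a α β → SIn b α β →
  (∀ x ∈ Set.Icc α β, ∀ y ∈ Set.Icc α β, ∀ n : ℤ, gg f x ≠ y + n) → ⁅a, b⁆ ∈ NC f

/-- **NR2** (medium). A displaced interval. uses: GGB.
Proof. If `gg f x - x ∈ ℤ` for all `x` then this continuous function is constant (connectedness; `gg f` is continuous), equal to some `n`, and `f` is the translation by `n`, excluded. So some `x0` has `gg f x0 - x0 ∉ ℤ`; the distance `ρ > 0` of this number to `ℤ` and continuity at `x0`: choose `η < ρ/4` with `|gg f x - gg f x0| < ρ/4` for `|x - x0| ≤ η`; then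
`|gg f x - y - n| ≥ ρ - ρ/4 - ρ/4 > 0`. -/
def NR2_stmt : Prop := ∀ f ∈ G2, (∀ n : ℤ, f ≠ CircleDeg1Lift.translate (Multiplicative.ofAdd (n : ℝ))) →
  ∃ x0 η : ℝ, 0 < η ∧ ∀ x ∈ Set.Icc (x0 - η) (x0 + η), ∀ y ∈ Set.Icc (x0 - η) (x0 + η), ∀ n : ℤ, gg f x ≠ y + n

/-- **NR3** (medium). Contraction of an arc. uses: MKL.
Proof. Let `m = (β + α + 1)/2` be the centre of the gap `(β, α+1)`, `g = (α + 1 - β)/2 ∈ (0,1/2]` its half length, `r_n(x) = ((1 + cos (2π(x - m)))/2)^n` (smooth, period one, nonnegative). For `x ∈ [α,β]`, `x - m` is at distance `≥ g` from `ℤ`, so `r_n ≤ s^n`, `s = (1 + cos (2πg))/2 < 1`; near `m` (`|x - m| ≤ g/2`) `r_n ≥ s'^n`, `s' = (1 + cos (πg))/2 > s`, so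
`I_n = ∫_0^1 r_n ≥ g s'^n` (integral over a period). `ρ = κ + (1-κ) r_n/I_n` with `κ = min (η/4) (1/2)`, `∫_0^1 ρ = 1`, `∫_α^β ρ ≤ κ + s^n/(g s'^n) ≤ η/2` for `n` large. `F x = x0 + ∫_α^x ρ`: smooth, `F' = ρ > 0`, `F (x+1) = F x + 1`, `F ([α,β]) ⊆ [x0, x0 + η/2]`. MKL. -/
def NR3_stmt : Prop := ∀ α β x0 η : ℝ, α < β → β < α + 1 → 0 < η → ∃ h ∈ G2, ∀ x ∈ Set.Icc α β, gg h x ∈ Set.Icc (x0 - η) (x0 + η)

/-- **NR4** (medium/LONG). uses: NR1, NR2, NR3, NCB, FRG, GGB.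
Proof. (1) If `a, b ∈ G2` have supports in `[α,α+1/50] + ℤ` and `[β,β+1/50] + ℤ`, then `⁅a,b⁆ ∈ NC f`: replace `β` by `β + n ∈ [α,α+1)`; if `β - α ≤ 1/2` both supports are in `[α,α+3/5]`, otherwise both are in `[β-1,β-1+3/5] + ℤ` (`SIn` does not change if the interval is translated by an integer or enlarged). So both are in `[γ,γ+3/5] + ℤ`. With
`x0, η` from NR2 and `h` from NR3 (`[γ,γ+3/5]`): `a' = hah⁻¹`, `b' = hbh⁻¹` have supports in `[x0-η,x0+η] + ℤ`, so `⁅a',b'⁆ ∈ NC f` (NR1), and `⁅a,b⁆ = h⁻¹ ⁅a',b'⁆ h ∈ NC f` (NCB). (2) For fixed such `b` the set of `g ∈ G2` with `⁅g,b⁆ ∈ NC f` contains all small pieces and is closed under products: `⁅gh,b⁆ = g ⁅h,b⁆ g⁻¹ ⁅g,b⁆`;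
FRG (with `ε = 1`): all `g ∈ G2`. (3) the same in the second variable: `⁅g,bb'⁆ = ⁅g,b⁆ b ⁅g,b'⁆ b⁻¹`. `Subgroup.commutator_le`. -/
def NR4_stmt : Prop := ∀ f ∈ G2, (∀ n : ℤ, f ≠ CircleDeg1Lift.translate (Multiplicative.ofAdd (n : ℝ))) → ⁅G2, G2⁆ ≤ NC f

/-- **The result.** -/
def RES_stmt : Prop := ∀ f g : CircleDeg1Liftˣ,
  ContDiff ℝ 2 ⇑(f : CircleDeg1Lift) → ContDiff ℝ 2 ⇑((f⁻¹ : CircleDeg1Liftˣ) : CircleDeg1Lift) →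
  ContDiff ℝ 2 ⇑(g : CircleDeg1Lift) → ContDiff ℝ 2 ⇑((g⁻¹ : CircleDeg1Liftˣ) : CircleDeg1Lift) →
  (∀ n : ℤ, f ≠ CircleDeg1Lift.translate (Multiplicative.ofAdd (n : ℝ))) →
  ML (deriv (deriv ⇑(g : CircleDeg1Lift))) → g ∈ ⁅G2, G2⁆ ∧ g ∈ NC f

/-- **FIN** (short). uses: COM, NR4. -/
def FIN_stmt : Prop := RES_stmt

end Pool.Agent.helper64.D2
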