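import Pool.Agent.helper64.D2.SpecS

/-!
# Project dc: (MP_5823cb_al, Diff^2_+(S^1)): calculus, averaging passes, chains

Rules: see `SpecS.lean` (here `import Pool.Agent.helper64.D2.SpecC`, and add `open scoped commutatorElement`: `⁅a,b⁆ = a * b * a⁻¹ * b⁻¹`). In the proofs a DD element is `id + X`; `X' = deriv X`, `X'' = d2 X`.
-/

set_option autoImplicit false

open Filter Topology
open scoped commutatorElement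

namespace Pool.Agent.helper64.D2

/-- **BAS** (short). uses: nothing.
Proof. `X = 0` on the open complement of `[p,q]`, so `X' = X'' = 0` there, and by continuity `X = X' = 0` at `p` and `q`. Mean value inequality from `p`: `|X' x| ≤ a (x - p) ≤ a (q - p)` on `[p,q]`, then `|X x| ≤ a (q-p)^2`. -/
def BAS_stmt : Prop := ∀ (X : ℝ → ℝ) (p q a : ℝ), ContDiff ℝ 2 X → (∀ x, x ∉ Set.Icc p q → X x = 0) → (∀ x, |d2 X x| ≤ a) → p ≤ q →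
  (∀ x, |deriv X x| ≤ a * (q - p)) ∧ (∀ x, |X x| ≤ a * (q - p) ^ 2) ∧ (∀ x, x ∉ Set.Icc p q → deriv X x = 0 ∧ d2 X x = 0) ∧
  ∀ x, x ∉ Set.Ioo p q → X x = 0 ∧ deriv X x = 0

/-- **DIF** (short/medium). uses: nothing.
Proof. `f = id + X` is `C^2`, `f' ≥ 1/2`, so `f` is a strictly increasing bijection of `ℝ` (it is the identity outside `(0,1)`); the inverse is `C^2` (`ContDiffAt.to_localInverse`, or `OpenPartialHomeomorph.contDiffAt_symm_deriv` for the homeomorphism `f`,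
or: `g = f⁻¹` is differentiable with `g' = 1/f'(g)`, a `C^1` function). -/
def DIF_stmt : Prop := ∀ X : ℝ → ℝ, ContDiff ℝ 2 X → (∀ x, x ∉ Set.Ioo (0 : ℝ) 1 → X x = 0) → (∀ x, |deriv X x| ≤ 1 / 2) →
  ∃ g : DD, Rep g X

/-- **CMP** (medium). uses: BAS.
Proof. `g h = id + Z`, `Z = Y + X ∘ h`, `h = id + Y`. `Z'' = Y'' + X''(h) h'^2 + X'(h) Y''`; `|X'| ≤ a`, `|Y'| ≤ b` (BAS, `q - p ≤ 1`). `|Z''| ≤ b + a(1+b)^2 + ab ≤ a + b + 4ab`. Lipschitz constants: `Y''`: `L'`; `X''(h) h'^2`: `L (1+b)^3 + 2 a b (1+b)`;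
`X'(h) Y''`: `a b (1+b) + a L'`. Sum `≤ 2L + 2L' + 1` for `a, b ≤ 1/8`. For `x ∉ [p,q]`: `h x = x`, `X x = 0`. -/
def CMP_stmt : Prop := ∀ (g h : DD) (X Y : ℝ → ℝ) (p q a b L L' : ℝ), Rep g X → Rep h Y → St X p q a L → St Y p q b L' → 0 ≤ p → p ≤ q → q ≤ 1 →
  a ≤ 1 / 8 → b ≤ 1 / 8 → 0 ≤ L → 0 ≤ L' → ∃ Z : ℝ → ℝ, Rep (g * h) Z ∧ St Z p q (a + b + 4 * a * b) (2 * L + 2 * L' + 1)

/-- **RAT** (medium/LONG). Quotients. uses: BAS.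
Proof. `Z = D ∘ φ` with `D = X - C`, `φ = c⁻¹` (`g c⁻¹ x = φ x + X(φ x)`, `x = φ x + C (φ x)`). `φ' = 1/(1 + C'(φ)) ≤ 8/7`, `φ'' = - C''(φ) φ'^3`, `|φ''| ≤ 3a/2 ≤ 3/16`. `Z' = D'(φ) φ'`, `Z'' = D''(φ) φ'^2 + D'(φ) φ''`. If `|D''| ≤ e` then `|D'| ≤ e` (BAS for `D`, `q - p ≤ 1`), so
`|Z''| ≤ (64/49 + 3/16) e ≤ 2e`. Lipschitz: `D''` has constant `2L`, `|D''| ≤ 1/4`, `|D'| ≤ 1/4`; `φ''` has constant `≤ L φ'^4 + 3 a φ'^2 |φ''| ≤ 2L + 1/10`; sum: `2L (8/7)^3 + (1/4) 2 (8/7)(3/16) + (1/4)(8/7)(3/16) + (1/4)(2L + 1/10) ≤ 6L + 1`. Support: `φ` preserves the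
complement of `[p,q]` pointwise. -/
def RAT_stmt : Prop := ∀ (g c : DD) (X C : ℝ → ℝ) (p q a : ℝ), Rep g X → Rep c C → ContDiff ℝ 2 X → ContDiff ℝ 2 C →
  (∀ x, x ∉ Set.Icc p q → X x = 0 ∧ C x = 0) → (∀ x, |d2 X x| ≤ a ∧ |d2 C x| ≤ a) → 0 ≤ p → p ≤ q → q ≤ 1 → a ≤ 1 / 8 →
  ∃ Z : ℝ → ℝ, Rep (g * c⁻¹) Z ∧ ContDiff ℝ 2 Z ∧ (∀ x, x ∉ Set.Icc p q → Z x = 0) ∧
    (∀ e : ℝ, (∀ x, |d2 X x - d2 C x| ≤ e) → ∀ x, |d2 Z x| ≤ 2 * e) ∧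
    (∀ e : ℝ, (∀ x, |deriv X x - deriv C x| ≤ e) → ∀ x, |deriv Z x| ≤ 2 * e) ∧
    ∀ L : ℝ, 0 ≤ L → (∀ x y, |d2 X x - d2 X y| ≤ L * |x - y|) → (∀ x y, |d2 C x - d2 C y| ≤ L * |x - y|) →
      ∀ x y, |d2 Z x - d2 Z y| ≤ (6 * L + 1) * |x - y|

/-- **PRD** (short). Size of a product. uses: SZC.
Proof. Induction on the list (from the left): if `A ≤ 2 Σ ≤ 1/8` bounds `|G''|` for the product `G` of the other factors and `b` the new one: `A + b + 4Ab ≤ A + 2b` by SZC (`4A ≤ 1`). Note `Sz 1 0`. -/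
def PRD_stmt : Prop := ∀ l : List (DD × ℝ), (∀ z ∈ l, Sz z.1 z.2 ∧ 0 ≤ z.2) → (l.map Prod.snd).sum ≤ 1 / 16 →
  Sz ((l.map Prod.fst).prod) (2 * (l.map Prod.snd).sum)

/-- The average of `X` over `[x + α, x + β]`. -/
noncomputable def av (X : ℝ → ℝ) (α β x : ℝ) : ℝ := (∫ y in (x + α)..(x + β), X y) / (β - α)

/-- **BOX** (medium). uses: BAS.
Proof. Fundamental theorem of calculus for `x ↦ ∫ in (x+α)..(x+β)`: derivative `X(x+β) - X(x+α)`. So `av` is `C^3` (only `C^2` is claimed) and the formulas hold; `|X'(x+β) - X'(x+α)| ≤ a (β - α)`; and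
`x ↦ (X'(x+β) - X'(x+α))/(β-α)` is Lipschitz with constant `2a/(β-α)` because `X'` is `a`-Lipschitz. Outside `[p-β, q-α]` the interval `[x+α,x+β]` misses `[p,q]`. -/
def BOX_stmt : Prop := ∀ (X : ℝ → ℝ) (p q a α β : ℝ), ContDiff ℝ 2 X → (∀ x, x ∉ Set.Icc p q → X x = 0) → (∀ x, |d2 X x| ≤ a) → α < β →
  ContDiff ℝ 2 (av X α β) ∧ (∀ x, x ∉ Set.Icc (p - β) (q - α) → av X α β x = 0) ∧
  (∀ x, deriv (av X α β) x = (X (x + β) - X (x + α)) / (β - α)) ∧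
  (∀ x, d2 (av X α β) x = (deriv X (x + β) - deriv X (x + α)) / (β - α)) ∧
  (∀ x, |d2 (av X α β) x| ≤ a) ∧ ∀ x y, |d2 (av X α β) x - d2 (av X α β) y| ≤ 2 * a / (β - α) * |x - y|

/-- **BXA** (short/medium). uses: BOX.
Proof. By BOX `av' x = (X(x+t) - X(x-t))/(2t) = X'(ξ)` and `av'' x = (X'(x+t) - X'(x-t))/(2t) = X''(ξ)` with `|ξ - x| ≤ t` (mean value theorem), and `X'` is `a`-Lipschitz. -/
def BXA_stmt : Prop := ∀ (X : ℝ → ℝ) (p q a t w : ℝ), ContDiff ℝ 2 X → (∀ x, x ∉ Set.Icc p q → X x = 0) → (∀ x, |d2 X x| ≤ a) → 0 < t →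
  (∀ x, |deriv (av X (-t) t) x - deriv X x| ≤ a * t) ∧
  ((∀ x y, |x - y| ≤ t → |d2 X x - d2 X y| ≤ w) → ∀ x, |d2 (av X (-t) t) x - d2 X x| ≤ w)

/-- **STP** (LONG). One averaging step, on functions. uses: BAS.
Proof. `H = id + X/2` is a `C^2` diffeomorphism of `ℝ` (`H' ≥ 15/16`), `v = H⁻¹ ∘ (H - θ)`, `C^2`, `v' = (1 + X'(u)/2)/(1 + X'(v)/2)`. `v - (u - θ) = (X u - X v)/2`, so `|v - (u-θ)| ≤ (λ/2)(θ + |v - (u-θ)|)`, which gives `≤ λ θ`.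
`v'' = (X''(u)/2 - X''(v) v'^2/2)/(1 + X'(v)/2)`, hence with `ϑ = (X'(v)/2)/(1 + X'(v)/2)`, `|ϑ| ≤ (8/15) λ`: `X⁺'' = (1/2) X''(u)(1+ϑ) + (1/2) X''(v) v'^2 (1-ϑ)`. `|v' - 1| ≤ (16/15) λ`, so `|v'^2(1-ϑ) - 1| ≤ 3λ`, `|X⁺'' - (X''(u)+X''(v))/2| ≤ (a/2)(8λ/15 + 3λ) ≤ 2λa`,
`|X⁺'| ≤ λ/2 + (λ/2)(1 + 16λ/15) ≤ λ(1+λ)`. Lipschitz: `Lip ϑ ≤ 0.65 a`, `|v''| ≤ 1.22 a`, `Lip(v'^2) ≤ 2.77a`, `Lip(v'^2 (1-ϑ)) ≤ 3.8a`, and `(1/2)L(1+ϑ) + (1/2) L v'^3 (1+|ϑ|) ≤ L (1 + 4λ)` (`(1 + 16λ/15)^3 (1 + 8λ/15) ≤ 1 + 5λ` for `λ ≤ 1/8`), sum `≤ L(1+4λ) + 3a^2`. Support: if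
`u ∉ [p, q+θ]`: `X u = 0` or `u ∈ (q, …)`; in all cases `X u = 0` and `v = H⁻¹(u - θ) = u - θ ∉ [p,q]` for `u > q + θ`, and for `u < p` also `u - θ < p`, so `X v = 0`. -/
def STP_stmt : Prop := ∀ (X : ℝ → ℝ) (p q a L lam θ : ℝ), ContDiff ℝ 2 X → (∀ x, x ∉ Set.Icc p q → X x = 0) → (∀ x, |deriv X x| ≤ lam) →
  (∀ x, |d2 X x| ≤ a) → (∀ x y, |d2 X x - d2 X y| ≤ L * |x - y|) → lam ≤ 1 / 8 → a ≤ 1 / 8 → 0 ≤ L → 0 ≤ θ → p ≤ q →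
  ∃ v X' : ℝ → ℝ, (∀ u, v u + X (v u) / 2 = u + X u / 2 - θ) ∧ (∀ u, X' u = X u / 2 + X (v u) / 2) ∧ ContDiff ℝ 2 v ∧ ContDiff ℝ 2 X' ∧
    (∀ u, |v u - (u - θ)| ≤ lam * θ) ∧ (∀ u, deriv v u = (1 + deriv X u / 2) / (1 + deriv X (v u) / 2)) ∧
    (∀ u, u ∉ Set.Icc p (q + θ) → X' u = 0) ∧ (∀ u, |deriv X' u| ≤ lam * (1 + lam)) ∧
    (∀ u, |d2 X' u - (d2 X u + d2 X (v u)) / 2| ≤ 2 * lam * a) ∧ (∀ u, |d2 X' u| ≤ a * (1 + 2 * lam)) ∧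
    ∀ x y, |d2 X' x - d2 X' y| ≤ (L * (1 + 4 * lam) + 3 * a ^ 2) * |x - y|

/-- **GST** (short). One averaging step, in the group: `⁅T, R h⁻¹⁆ R = T R h⁻¹ T⁻¹ h`. uses: nothing.
Proof. Let `y = ev h u = u + X u/2` and `x2 = R h⁻¹`. If `y - θ ∈ [p,q]` then `ev T⁻¹ y = y - θ`, `ev h⁻¹ (y - θ) = v` (`v + X v/2 = y - θ`), `x2 (y-θ) = v + X v ∈ [p,q]` (increasing bijections fixing all points outside `(p,q)`; `X p = X q = 0` by continuity), so the value is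
`v + X v + θ = u + X u/2 + X v/2`. If `y - θ ∉ [p,q]` then `y ∉ T[p,q]`, so `T⁻¹ y ∉ [p,q]` is fixed by `x2` and the value is `y`; and `v = y - θ`, `X v = 0`. -/
def GST_stmt : Prop := ∀ (R T h : DD) (X v X' : ℝ → ℝ) (θ p q : ℝ), Rep R X → Rep h (fun x => X x / 2) → ContDiff ℝ 2 X →
  (∀ x, x ∉ Set.Icc p q → X x = 0) → p ≤ q → (∀ y ∈ Set.Icc p q, ev T y = y + θ) →
  (∀ u, v u + X (v u) / 2 = u + X u / 2 - θ) → (∀ u, X' u = X u / 2 + X (v u) / 2) → Rep (⁅T, R * h⁻¹⁆ * R) X'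

/-- **SMA** (short/medium). Small translations and homotheties. uses: DIF.
Proof. `ψ` smooth, `ψ = 1` on `[1/5,4/5]`, zero outside `[1/10,9/10]` (`exists_contDiff_...`, or products of `Real.smoothTransition`); `id + θ ψ` and `id + θ ψ(x) x`; `C` bounds the first and second derivatives of `ψ` and of `x ψ` (compact support), and is at least twice these bounds and at least `1`, so
that the first derivative of `θ ψ` (`θ ψ(x) x`) is at most `1/2` for `|θ| ≤ 1/C`. -/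
def SMA_stmt : Prop := ∃ C : ℝ, 1 ≤ C ∧
  (∀ θ : ℝ, |θ| ≤ 1 / C → ∃ g : DD, (∀ y ∈ Set.Icc (1 / 5 : ℝ) (4 / 5), ev g y = y + θ) ∧ Sz g (C * |θ|)) ∧
  ∀ θ : ℝ, |θ| ≤ 1 / C → ∃ g : DD, (∀ y ∈ Set.Icc (1 / 5 : ℝ) (4 / 5), ev g y = (1 + θ) * y) ∧ Sz g (C * |θ|)

/-- **PAS** (medium). One averaging step, assembled. uses: STP, GST, SMA, DIF, SZC, BAS.
Proof. `h = id + X/2` (DIF), `T` from SMA, `X'` from STP, `x2 = R h⁻¹`; `Sz x2`: `Sz R a`, `Sz h (a/2)`, `Sz h⁻¹ a`, product `≤ a + a + 4a^2 ≤ 3a`. -/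
def PAS_stmt : Prop := ∃ C : ℝ, 1 ≤ C ∧ ∀ (R : DD) (X : ℝ → ℝ) (p q a L lam θ : ℝ), Rep R X → St X p q a L → (∀ x, |deriv X x| ≤ lam) →
  lam ≤ 1 / 8 → 0 ≤ a → a ≤ 1 / 8 → 0 ≤ L → 1 / 4 ≤ p → p ≤ q → q + θ ≤ 3 / 4 → 0 < θ → C * θ ≤ 1 →
  ∃ (T x2 : DD) (X' v : ℝ → ℝ), Rep (⁅T, x2⁆ * R) X' ∧ St X' p (q + θ) (a * (1 + 2 * lam)) (L * (1 + 4 * lam) + 3 * a ^ 2) ∧
    (∀ x, |deriv X' x| ≤ lam * (1 + lam)) ∧ Sz T (C * θ) ∧ Sz x2 (3 * a) ∧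
    ∀ u, |v u - (u - θ)| ≤ lam * θ ∧ |d2 X' u - (d2 X u + d2 X (v u)) / 2| ≤ 2 * lam * a

/-- **APP** (LONG). The averaging pass: `n` steps with the translations `θ, 2θ, 4θ, …`. uses: PAS, BAS.
Proof. Apply PAS for `j < n` with the translation `θ_j = 2^j θ`, `X_0 = X`; `R' (j+1) = R' j` for `j ≥ n` (`u = v = 1`). `λ_0 = a/2` (BAS, `q - p ≤ 1/2`), `λ_j = λ_0 ∏ (1+λ_i) ≤ 2 λ_0 ≤ a` and `a_j ≤ a (1+2a)^n ≤ 2a`, `L_j ≤ (1+4a)^n (L + 12 n a^2) ≤ 2L + 1` (all because `n a ≤ 1/100`: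
`(1+4a)^n ≤ exp(1/25)`). The supports are in `[p, q + (2^n - 1) θ]`. Let `U_j(x) = (X'(x) - X'(x - θ_j))/θ_j`; `U_j` is Lipschitz with constant `2a/θ_j`, and `U_(j+1)(x) = (U_j(x) + U_j(x - θ_j))/2`. Let `e_j = sup |X_j'' - U_j|`; `e_0 ≤ Lθ`. By PAS (with `v`)
`|X_(j+1)''(u) - U_(j+1)(u)| ≤ (1/2) e_j + (1/2)(e_j + |U_j(v) - U_j(u - θ_j)|) + 2 λ_j a_j ≤ e_j + (1/2)(2a/θ_j) λ_j θ_j + 2 λ_j a_j ≤ e_j + 5a^2`. -/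
def APP_stmt : Prop := ∃ C : ℝ, 1 ≤ C ∧ ∀ (n : ℕ) (R : DD) (X : ℝ → ℝ) (p q a L θ : ℝ), Rep R X → St X p q a L → 0 ≤ L → 0 ≤ a → a ≤ 1 / 100 →
  (n : ℝ) * a ≤ 1 / 100 → 1 / 4 ≤ p → p ≤ q → q + 2 ^ n * θ ≤ 3 / 4 → 0 < θ → C * (2 ^ n * θ) ≤ 1 →
  ∃ (R' u v : ℕ → DD) (X' : ℕ → ℝ → ℝ), R' 0 = R ∧ (∀ j, R' (j + 1) = ⁅u j, v j⁆ * R' j) ∧
    (∀ j ≤ n, Rep (R' j) (X' j) ∧ St (X' j) p (q + 2 ^ n * θ) (2 * a) (2 * L + 1)) ∧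
    (∀ j, Sz (u j) (C * (2 ^ n * θ)) ∧ Sz (v j) (6 * a)) ∧ (∀ j ≥ n, u j = 1 ∧ v j = 1) ∧
    ∀ x, |d2 (X' n) x - (deriv X x - deriv X (x - 2 ^ n * θ)) / (2 ^ n * θ)| ≤ L * θ + 5 * n * a ^ 2

/-- **LW1** (LONG). The commutator of a translation by `θ` and `b = id - Y/θ`, `Y' = Ξ`. uses: SMA, DIF, BAS, SZC.
Proof. `|Ξ'| ≤ A θ^2`, `|Ξ| ≤ A θ^2`, `|Y| ≤ A θ^2` (BAS for `Ξ`, `q - p ≤ 1`; `Ξ = 0` outside `[p,q]` since `Y = 0` there). `b = id + B`, `B = - Y/θ`, `|B'| ≤ Aθ ≤ 1/2`, `b ∈ DD` (DIF), `Sz b (Aθ)`. With `y = b⁻¹ x`: if `y - θ ∈ [p,q]` then `T b T⁻¹ y = y + B(y - θ)`, and the same if `y - θ ∉ [p,q]` (value `y`), so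
`⁅T,b⁆ x = y + B(y-θ) = x - B(y) + B(y-θ) = x + Q(y)`, `Q(y) = (Y(y) - Y(y-θ))/θ`. `Q' = (Ξ(y) - Ξ(y-θ))/θ`, `Q'' = (Ξ'(y) - Ξ'(y-θ))/θ`; `|Q'|, |Q''| ≤ A θ^2`, `|Q''(y) - Ξ''(y)| ≤ M θ` (mean value theorem, `Ξ''` is `M`-Lipschitz), `Q''` is `M`-Lipschitz. `|y - x| = |B(y)| ≤ Aθ`,
`y' = 1/(1 + B'(y))`, `|y' - 1| ≤ 2Aθ`, `|y''| ≤ 2Aθ`, `y''` Lipschitz with constant `C θ`. `D = Q ∘ y`: `D'' = Q''(y) y'^2 + Q'(y) y''`, so `|D'' - Ξ''| ≤ Mθ + M A θ + C θ^3`, `D''` Lipschitz with constant `C (M + θ^2)`. Support in `[p, q+θ]`. -/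
def LW1_stmt : Prop := ∀ A : ℝ, 1 ≤ A → ∃ C : ℝ, 1 ≤ C ∧ ∀ (Y Xi : ℝ → ℝ) (p q θ M : ℝ), ContDiff ℝ 2 Xi → (∀ x, HasDerivAt Y (Xi x) x) →
  (∀ x, x ∉ Set.Icc p q → Y x = 0) → (∀ x, |d2 Xi x| ≤ A * θ ^ 2) → (∀ x y, |d2 Xi x - d2 Xi y| ≤ M * |x - y|) →
  1 / 4 ≤ p → p ≤ q → q + θ ≤ 3 / 4 → 0 < θ → C * θ ≤ 1 → 0 ≤ M →
  ∃ (T b : DD) (D : ℝ → ℝ), Rep ⁅T, b⁆ D ∧ St D p (q + θ) (C * θ ^ 2) (C * (M + θ ^ 2)) ∧ Sz T (C * θ) ∧ Sz b (C * θ) ∧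
    ∀ x, |d2 D x - d2 Xi x| ≤ C * θ * (M + θ ^ 2)

/-- **LW2** (LONG). The commutator of a homothety `1 + θ` and `b = id + (β/θ) κ`. uses: SMA, DIF, BAS, SZC.
Proof. `κ` is a smooth bump with `∫ κ = 1` (`ContDiffBump`, `normed`). `b = id + (β/θ) κ`, `|β/θ| ≤ Aθ`. `S y = (1+θ) y` on `[1/5,4/5]` (SMA). With `y = b⁻¹ x`: `S b S⁻¹ y = y + (1+θ)(β/θ) κ(y/(1+θ))` (for `y/(1+θ)` in the support of `κ` use SMA; otherwise both sides are `y`, `θ` small), so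
`⁅S,b⁆ x = x + β G(y)`, `G(y) = ((1+θ) κ(y/(1+θ)) - κ(y))/θ`. `G'' (y) = ((1+θ)⁻¹ κ''(y/(1+θ)) - κ''(y))/θ` differs from `-κ''(y) - y κ'''(y) = (κ - y κ')''(y)` by at most `C θ` (Taylor in `θ`, `κ` smooth with compact support); `G, G', G'', G'''` are bounded by `C`. `|y - x| ≤ Aθ |κ|`,
`|y' - 1|, |y''| ≤ Cθ`, `y''` is `Cθ`-Lipschitz. So `E = β G(y)` satisfies `|E'' - β (κ - yκ')''| ≤ C |β| θ ≤ Cθ^3`, `|E''| ≤ C θ^2`, Lipschitz constant `Cθ^2`, support in `[4/10,1/2]`. -/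
def LW2_stmt : Prop := ∃ κ : ℝ → ℝ, ContDiff ℝ 5 κ ∧ (∀ x, x ∉ Set.Icc (42 / 100 : ℝ) (48 / 100) → κ x = 0) ∧ (∫ x, κ x) = 1 ∧
  ∀ A : ℝ, 1 ≤ A → ∃ C : ℝ, 1 ≤ C ∧ ∀ β θ : ℝ, 0 < θ → C * θ ≤ 1 → |β| ≤ A * θ ^ 2 →
    ∃ (S b : DD) (E : ℝ → ℝ), Rep ⁅S, b⁆ E ∧ St E (4 / 10) (1 / 2) (C * θ ^ 2) (C * θ ^ 2) ∧ Sz S (C * θ) ∧ Sz b (C * θ) ∧
      ∀ x, |d2 E x - β * d2 (fun y => κ y - y * deriv κ y) x| ≤ C * θ ^ 3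

/-- **LOW** (medium/LONG). A function with small Lipschitz constant of `X''` is, up to a much smaller error, a product of two commutators. uses: LW1, LW2, BAS, CMP.
Proof. `β = (1/2) ∫ X`, `|β| ≤ A θ^2` (BAS). `Ξ = X - β (κ - xκ')`, supported in `[p,q]`, `∫ Ξ = 0` because `∫ (κ - xκ') = 2 ∫ κ = 2` (integration by parts), `Y(x) = ∫_p^x Ξ` vanishes outside `[p,q]`. `|Ξ''| ≤ A' θ^2`, Lipschitz constant `M + A' θ^2`. LW1 gives `⁅T,b⁆ = id + D1`, LW2 (with `β`) `⁅S,b'⁆ = id + E`;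
product `id + D`, `D = E + D1 ∘ (id + E)`, `D'' = E'' + D1''(id+E)(1+E')^2 + D1'(id + E) E''`. `|E|, |E'|, |E''| ≤ Cθ^2`, so `|D1''(x + E) - D1''(x)| ≤ C(M+θ^2) θ^2`, other products are `≤ Cθ^4`; with `Ξ'' + β (κ - xκ')'' = X''`: `|D'' - X''| ≤ Cθ(M+θ^2)`. The Lipschitz constant and the bound of `D''` directly
(as in CMP, with the small factors kept: `Lip ≤ C (M + θ^2)`). -/
def LOW_stmt : Prop := ∀ A : ℝ, 1 ≤ A → ∃ C : ℝ, 1 ≤ C ∧ ∀ (X : ℝ → ℝ) (p q θ M : ℝ), ContDiff ℝ 2 X → (∀ x, x ∉ Set.Icc p q → X x = 0) →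
  (∀ x, |d2 X x| ≤ A * θ ^ 2) → (∀ x y, |d2 X x - d2 X y| ≤ M * |x - y|) → 1 / 4 ≤ p → p ≤ 4 / 10 → 1 / 2 ≤ q → q + θ ≤ 3 / 4 → 0 < θ → C * θ ≤ 1 → 0 ≤ M →
  ∃ (u1 v1 u2 v2 : DD) (D : ℝ → ℝ), Rep (⁅u1, v1⁆ * ⁅u2, v2⁆) D ∧ St D p (q + θ) (C * θ ^ 2) (C * (M + θ ^ 2)) ∧
    Sz u1 (C * θ) ∧ Sz v1 (C * θ) ∧ Sz u2 (C * θ) ∧ Sz v2 (C * θ) ∧ ∀ x, |d2 D x - d2 X x| ≤ C * θ * (M + θ ^ 2)

/-- **HST** (LONG). One stage of the chain. uses: CMP, APP, BOX, BAS, LOW, RAT, SZC.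
Proof. `R = S F`: CMP with `a0 = b^(-40)`: `|X_R''| ≤ a := 3 b^(-40)`, Lipschitz constant `2^(3b+3)`, support in `[3/10, 13/20 - 1/b]`. APP with `n = 4b + 3`, `w = b^(-4)`, `θ = w/2^n`: `n a ≤ 1/100`, error `2^(3b+3) θ + 5 n a^2 ≤ b^(-60)`. With `X̃ = av X_R (-w) 0` (BOX: `X̃''(x) = (X_R'(x) - X_R'(x-w))/w`,
`|X̃''| ≤ a`, Lipschitz constant `M = 2a/w = 6 b^(-36)`, support in `[3/10, 13/20 - 1/b + w]`): `|X_n'' - X̃''| ≤ b^(-60)`. LOW with `A = 1`, `θ' = 2 b^(-20)`, so `a ≤ θ'^2`: `c = ⁅u1,v1⁆ ⁅u2,v2⁆ = id + D`, `|D'' - X̃''| ≤ C θ' (M + θ'^2) ≤ 30 C b^(-56)`. `S' = R_n c⁻¹ = R_n ⁅v2,u2⁆ ⁅v1,u1⁆`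
(two more steps `j = n, n+1` with `u' , v'`): RAT gives `|S'''| ≤ 2 (b^(-60) + 30 C b^(-56)) ≤ (b')^(-40)` (`b' ≤ 6b/5`), Lipschitz constant `6 · 2^(3b+5) + 1 ≤ 2^(3b+8) ≤ 2^(3b')` (`b' ≥ 7b/6`), support up to `13/20 - 1/b + w + θ' ≤ 13/20 - 1/b'` as `1/b - 1/b' ≥ 1/(8b)`. Sizes of the states: `2a` for `j ≤ n`,
then products with commutators of elements of size `C b^(-20)`: all `≤ C b^(-4)`. For `j ≥ n + 2` nothing changes, `n + 2 ≤ 5b`. -/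
def HST_stmt : Prop := ∃ (B0 : ℕ) (C : ℝ), 1 ≤ C ∧ ∀ b : ℕ, B0 ≤ b → ∀ (S F : DD) (XS XF : ℝ → ℝ), Rep S XS → Rep F XF →
  St XS (3 / 10) (13 / 20 - 1 / b) (1 / (b : ℝ) ^ 40) (2 ^ (3 * b)) → St XF (3 / 10) (6 / 10) (1 / (b : ℝ) ^ 40) (2 ^ (2 * b)) →
  ∃ (R u v u' v' : ℕ → DD) (X' : ℝ → ℝ), R 0 = S * F ∧ (∀ j, R (j + 1) = ⁅u j, v j⁆ * R j * ⁅u' j, v' j⁆) ∧
    (∀ j, Sz (R j) (C / (b : ℝ) ^ 4) ∧ Sz (u j) (C / (b : ℝ) ^ 4) ∧ Sz (v j) (C / (b : ℝ) ^ 4) ∧ Sz (u' j) (C / (b : ℝ) ^ 4) ∧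
      Sz (v' j) (C / (b : ℝ) ^ 4)) ∧
    (∀ j ≥ 5 * b, u j = 1 ∧ v j = 1 ∧ u' j = 1 ∧ v' j = 1) ∧ Rep (R (5 * b)) X' ∧
    St X' (3 / 10) (13 / 20 - 1 / ((b + b / 5 : ℕ) : ℝ)) (1 / ((b + b / 5 : ℕ) : ℝ) ^ 40) (2 ^ (3 * (b + b / 5)))

/-- Number of random steps. -/
def mm (b : ℕ) : ℕ := 84 * (Nat.log 2 b + 1) + 20

/-- **RP** (result of `SpecR.lean`): reduction of an element with tiny first derivative in few steps. -/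
def RP_stmt : Prop := ∃ (B0 : ℕ) (C : ℝ), 1 ≤ C ∧ ∀ b : ℕ, B0 ≤ b → ∀ (R : DD) (X : ℝ → ℝ) (ε : ℝ), 0 ≤ ε → ε ≤ 1 / 100 → Rep R X →
  St X (32 / 100) (58 / 100) ε (2 ^ b) → (∀ x, |deriv X x| ≤ 1 / (b : ℝ) ^ 300) →
  ∃ (R' u v : ℕ → DD) (X' : ℝ → ℝ), R' 0 = R ∧ (∀ j, R' (j + 1) = ⁅u j, v j⁆ * R' j) ∧
    (∀ j, Sz (R' j) (2 * ε) ∧ Sz (u j) (C / (b : ℝ) ^ 2) ∧ Sz (v j) (8 * ε)) ∧ (∀ j ≥ mm b, u j = 1 ∧ v j = 1) ∧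
    Rep (R' (mm b)) X' ∧ St X' (3 / 10) (6 / 10) (1 / (b : ℝ) ^ 40) (2 ^ (b + 2))

/-- The modulus of continuity of `u` is `o((log log (1/t))^(-3/2))`. -/
def ML (u : ℝ → ℝ) : Prop := ∀ e : ℝ, 0 < e → ∃ t0 : ℝ, 0 < t0 ∧ ∀ t : ℝ, 0 < t → t < t0 → ∀ x y : ℝ, |x - y| ≤ t →
  |u x - u y| ^ 2 * Real.log (Real.log (1 / t)) ^ 3 ≤ e

/-- **CORE** (proved in `SpecD.lean`). -/
def CORE_stmt : Prop := ∃ e0 : ℝ, 0 < e0 ∧ ∀ (f : DD) (X : ℝ → ℝ), Rep f X → ContDiff ℝ 2 X →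
  (∀ x, x ∉ Set.Icc (34 / 100 : ℝ) (56 / 100) → X x = 0) → (∀ x, |d2 X x| ≤ e0) → ML (d2 X) → Th (Pi.mulSingle 2 f) ∈ ⁅G2, G2⁆

/-- The sequence `b_(n+1) = b_n + ⌊b_n/5⌋`. -/
def bs (B : ℕ) : ℕ → ℕ
  | 0 => B
  | n + 1 => bs B n + bs B n / 5

open Classical in
/-- The sequence with `F i` in the slot `k i` and `1` elsewhere. -/
noncomputable def place (k : ℕ → ℕ) (F : ℕ → DD) : ℕ → DD := fun n => if h : ∃ i, k i = n then F (Nat.find h) else 1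

/-- **GLU** (short/medium). Gluing of sequences. uses: nothing.
Proof. For `n ≥ k 0` let `i` be the largest index with `k i ≤ n` (`Nat.findGreatest`, `i ≤ k i`); put `z n = Z i n`. -/
def GLU_stmt : Prop := ∀ (α : Type) (k : ℕ → ℕ) (Z : ℕ → ℕ → α) (d : α), StrictMono k →
  ∃ z : ℕ → α, (∀ n < k 0, z n = d) ∧ ∀ i n, k i ≤ n → n < k (i + 1) → z n = Z i n

/-- **PLC** (short). uses: nothing. `place` for strictly monotone `k`. -/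
def PLC_stmt : Prop := ∀ (k : ℕ → ℕ) (F : ℕ → DD), StrictMono k → (∀ i, place k F (k i) = F i) ∧ ∀ n, (∀ i, k i ≠ n) → place k F n = 1

/-- **BSQ** (short/medium). uses: nothing.
Proof. `b + b/5 ≤ 6b/5`, `b + b/5 ≥ b + b/5 - 4/5 ≥ 7b/6` for `b ≥ 30`. `2^n ≤ (bs B n)^8` as `(7/6)^8 ≥ 2`. `bs B (2n) ≤ bs B n ^3`: `bs B (2n) ≤ bs B n (6/5)^n` and `(6/5)^n ≤ (7/6)^(2n) ≤ (bs B n)^2`. Slots: `160 (bs B (n+1) - bs B n) ≥ 26 bs B n`. -/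
def BSQ_stmt : Prop := ∀ B : ℕ, 30 ≤ B → StrictMono (bs B) ∧ (∀ n, n + B ≤ bs B n) ∧ (∀ n, bs B n ≤ B * 2 ^ n) ∧ (∀ n, 2 ^ n ≤ (bs B n) ^ 8) ∧
  (∀ n, bs B (2 * n) ≤ (bs B n) ^ 3) ∧ (∀ n, 7 * bs B n ≤ 6 * bs B (n + 1) ∧ 5 * bs B (n + 1) ≤ 6 * bs B n) ∧
  (∀ n, bs B (n + 1) = bs (bs B 1) n) ∧ ∀ n, 160 * bs B n + 26 * bs B n ≤ 160 * bs B (n + 1)

/-- **HTH** (LONG). The chain. uses: HST, BSQ, GLU, PLC, ADM, KRS, SZC.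
Proof. `B0` at least that of HST and `30`. `S_0 = 1`; by recursion (dependent choice) HST gives from `S_n` and `F n`, `b = bs B n`, the sequences `R^n, u^n, v^n, u'^n, v'^n` and `S_(n+1) = R^n (5b)`. With `k n = 160 bs B n`, `k (n+1) ≥ k n + 5 bs B n + 1`, GLU defines `V m = R^n (m - k n)` for `k n ≤ m < k (n+1)`, `V m = 1` for
`m < k 0`, and sequences `u, v, u', v'` with `u m = u^n (m - k n - 1)` for `k n < m < k (n+1)`, trivial at `m = k n` and below `k 0`. Then for all `m`: `V m = ⁅u m, v m⁆ * V (m-1) * (place k F) m * ⁅u' m, v' m⁆` (at `m = k n`: `V (m-1) = S_n`, `V m = S_n F_n`). Let `x = ⁅v,u⁆` (so `x m = ⁅u m, v m⁆⁻¹`),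
`y = place k F * ⁅u',v'⁆`: `x V = sh V * y`. All sequences are admissible: for `k n ≤ m ≤ k (n+1) ≤ 200 bs B n` sizes are `≤ C/(bs B n)^4 ≤ C'/m^4`. KRS: `x y⁻¹ ∈ K0`; `x` and `⁅u',v'⁆` are commutators of admissible sequences, so in `K0`; hence `place k F ∈ K0`. -/
def HTH_stmt : Prop := ∃ B0 : ℕ, ∀ B : ℕ, B0 ≤ B → ∀ (F : ℕ → DD) (X : ℕ → ℝ → ℝ),
  (∀ n, Rep (F n) (X n) ∧ St (X n) (3 / 10) (6 / 10) (1 / (bs B n : ℝ) ^ 40) (2 ^ (2 * bs B n))) →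
  place (fun n => 160 * bs B n) F ∈ K0

/-- **RSL** (medium/LONG). Moving to later slots. uses: PLC, PRD, ADM, KRS, SZC.
Proof. Let `V m` be the product of the `F i`, in increasing order of `i`, over the `i` with `k i ≤ m < k' i`; these `i` form an interval `[lo m, hi m)`, `lo m = #{i : k' i ≤ m}`, `hi m = #{i : k i ≤ m}` (`lo ≤ hi`; define `V m = ((List.range' (lo m) (hi m - lo m)).map F).prod`). With `x = place k' F`, `y = place k F`: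
`x m * V m = V (m-1) * y m`: at most one `i` has `k' i = m` (then `i = lo (m-1)`, `lo m = lo (m-1) + 1`), at most one `j` has `k j = m` (`j = hi (m-1)`), and `V (m-1) y m` is the product over `[lo (m-1), hi m)`, of which `x m` is the first factor if `lo m > lo (m-1)` (also if `k i = k' i = m`). `V m = 1` for `m < 2`.
Sizes: `∑ a i` over `i` with `m < k' i` is `≤ ∑ C/((m+1)^4 2^i) ≤ 2C/(m+1)^4`, so for large `m` PRD gives `Sz (V m) (4C/(m+1)^4)` and for the finitely many other `m` use the last part of SZC; so `V` is admissible, and `y` is admissible (`a i ≤ C/(k i)^4`). KRS: `x y⁻¹ ∈ K0`. -/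
def RSL_stmt : Prop := ∀ (k k' : ℕ → ℕ) (F : ℕ → DD) (a : ℕ → ℝ) (C : ℝ), StrictMono k → StrictMono k' → 2 ≤ k 0 → (∀ i, k i ≤ k' i) →
  (∀ i, Sz (F i) (a i)) → (∀ i, 0 ≤ a i) → (∀ i, a i * (k' i : ℝ) ^ 4 * 2 ^ i ≤ C) → place k' F ∈ K0 → place k F ∈ K0

/-- **LPK** (medium). A diffeomorphism with Lipschitz second derivative. uses: HTH, BSQ, RAT, DIF, KSG, PLC, BAS.
Proof. Let `B ≥ B0` (of HTH), `B ≥ 30`, `2^(2B) ≥ 6L + 1`, and `N ≥ B^40`. `f_j = id + (j/N) X ∈ DD` (DIF), `j ≤ N`, `g = ∏ (f_(j+1) f_j⁻¹)` (ordered), `f_(j+1) f_j⁻¹ = id + Z_j` with `|Z_j''| ≤ 2 · (1/(8N)) ≤ B^(-40)` and Lipschitz constant `6L+1 ≤ 2^(2B)`, support in `[31/100,59/100]` (RAT). HTH with `F 0 = f_(j+1) f_j⁻¹`,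
`F n = 1` for `n ≥ 1`: `place … F = Pi.mulSingle (160 B) (F 0) ∈ K0`. KSG, and `Pi.mulSingle 2` is multiplicative. -/
def LPK_stmt : Prop := ∀ (g : DD) (X : ℝ → ℝ) (L : ℝ), Rep g X → St X (31 / 100) (59 / 100) (1 / 8) L → Pi.mulSingle 2 g ∈ K0

end Pool.Agent.helper64.D2
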