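import Pool.Agent.helper64.D2.Defs

/-!
# Project dc: (MP_5823cb_al, Diff^2_+(S^1)): rules, slots

Rules: module `XX` is `theorem XX (hYY : YY_stmt) … : XX_stmt` in the file `Pool/Agent/<seat>/D2/XX.lean` with `import` of the spec file which contains
`XX_stmt`, `set_option autoImplicit false`, `open Filter Topology`, `namespace Pool.Agent.helper64.D2`. Hypotheses: the statements listed under `uses`
(any other statement of these spec files is also allowed as long as no circle arises). Auxiliary lemmas prefixed `XX_`. No `sorry`, no double quotes, no `#` commands.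

`DD`: `C^2` diffeomorphisms of the line, identity outside `(0,1)`; an element is `id + X`, `Rep g X`. Sizes: `Sz g a` means `|g''| ≤ a`; then `|g' - 1| ≤ a` and `|g - id| ≤ a`
because `g = id` outside `(0,1)`.
-/

set_option autoImplicit false

open Filter Topology

namespace Pool.Agent.helper64.D2

/-- **SZC** (medium). uses: nothing.
Proof. (1) From `ev g x = x + X x`: `X = ev g - id` is `C^2`, zero outside `(0,1)`, `deriv (ev g) = 1 + deriv X`, `d2 (ev g) = d2 X`. (2) `Sz g a` implies `|deriv (ev g) x - 1| ≤ a`: it is `0` for `x ≤ 0` and `x ≥ 1`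
(`ev g = id` near every `x < 0`, and by continuity of the derivative at `0`), and on `[0,1]` use the mean value inequality from `0`. (3) `(g h)'' = g''(h) h'^2 + g'(h) h''`, so
`|(g h)''| ≤ a (1+b)^2 + (1+a) b = a + b + 3ab + ab^2 ≤ a + b + 4ab`. (4) With `y = ev g⁻¹ x`: `(g⁻¹)'(x) = 1/g'(y)` (`HasDerivAt.of_local_left_inverse` or from `ev g (ev g⁻¹ x) = x` and differentiability of `ev g⁻¹`, a `C^2` map),
`(g⁻¹)''(x) = - g''(y)/g'(y)^3`, `|.| ≤ a/(7/8)^3 ≤ 2a`. (5) `d2 (ev g)` is continuous and zero outside `[0,1]`, so bounded. -/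
def SZC_stmt : Prop :=
  (∀ (g : DD) (X : ℝ → ℝ), Rep g X → ContDiff ℝ 2 X ∧ (∀ x, x ∉ Set.Ioo (0 : ℝ) 1 → X x = 0) ∧
    (∀ x, deriv (ev g) x = 1 + deriv X x) ∧ ∀ x, d2 (ev g) x = d2 X x) ∧
  (∀ (g : DD) (a : ℝ), Sz g a → ∀ x, |deriv (ev g) x - 1| ≤ a ∧ |ev g x - x| ≤ a) ∧
  (∀ (g h : DD) (a b : ℝ), Sz g a → Sz h b → a ≤ 1 / 8 → b ≤ 1 / 8 → Sz (g * h) (a + b + 4 * a * b)) ∧
  (∀ (g : DD) (a : ℝ), Sz g a → a ≤ 1 / 8 → Sz g⁻¹ (2 * a)) ∧ ∀ g : DD, ∃ a, Sz g a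

/-- **ADM** (medium). uses: SZC.
Proof. If `k^3 a_k^2 → 0` then `a_k → 0` and the `a_k` may be replaced by `max a_k 0`, `Sz` persists and `0 ≤ a_k` (in fact `Sz g a` implies `0 ≤ a`). For all but finitely many `k` the sizes are `≤ 1/8` and
SZC gives `Sz ((a b)_k) (2 (a_k + b_k))`, `Sz (a⁻¹_k) (2 a_k)`; for the others take any bound (SZC, last part): define the new bound as a function `if k < k0 then (chosen bound) else 2 (a_k + b_k)`; the limit only depends on large `k`;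
`(a+b)^2 ≤ 2a^2 + 2b^2`. For `sh a`: the bound at `k` is `a_(k-1)`, `k^3 ≤ 8 (k-1)^3` for `k ≥ 2`; `(sh a) 0 = a 0 = 1`, `(sh a) 1 = a 0 = 1`. `Pi.mulSingle k g`: bounds `0` except at `k` (`d2 (ev 1) = 0`). -/
def ADM_stmt : Prop := (∀ a b : ℕ → DD, Adm a → Adm b → Adm (a * b)) ∧ (∀ a : ℕ → DD, Adm a → Adm a⁻¹) ∧
  (∀ a : ℕ → DD, Adm a → Adm (sh a)) ∧ Adm 1 ∧ ∀ (k : ℕ) (g : DD), 2 ≤ k → Adm (Pi.mulSingle k g)

/-- **KRS** (short). The move lemma: `x_k V_k = V_(k-1) y_k`. uses: nothing.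
Proof. `x y⁻¹ = sh V * y * V⁻¹ * y⁻¹ = (sh V * V⁻¹) * (V * y * V⁻¹ * y⁻¹)`, both factors are among the generators of `K0`. -/
def KRS_stmt : Prop := ∀ x y V : ℕ → DD, Adm V → Adm y → x * V = sh V * y → x * y⁻¹ ∈ K0

/-- **KSG** (short). uses: ADM.
Proof. For `k ≥ 2`: `sh (Pi.mulSingle k g) = Pi.mulSingle (k+1) g` (at `0`: `Pi.mulSingle k g 0 = 1`), so `Pi.mulSingle (k+1) g * (Pi.mulSingle k g)⁻¹ ∈ K0`. Induction. -/
def KSG_stmt : Prop := ∀ (k : ℕ) (g : DD), 2 ≤ k → (Pi.mulSingle k g ∈ K0 ↔ Pi.mulSingle 2 g ∈ K0)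

/-- **SM1** (medium/LONG). The map of the half line defined by an admissible sequence. uses: SZC.
Proof. `h u = u + ∑' k, D_k (u - k)` for `u > 1/2` where `D_k x = ev (c k) x - x` (`C^2`, zero outside `(0,1)`, so near a point only finitely many terms, with `k ≤ u+1`, are nonzero; `D_0 = D_1 = 0` as `c 0 = c 1 = 1`): simply define
`h u = if u ≤ 2 then u else slot c u`, and near any `u0` `h u = u + ∑ k ∈ range (N+2), D_k (u - k)` for `u < N + 1`: finite sum of `C^2` functions (for `k = ⌊u⌋₊` the term is `ev (c k) (u-k) - (u-k)`, all other terms vanish; for `u ≤ 2` all terms vanish).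
So for `u ∈ [k,k+1)`: `|d2 h u| ≤ a_k`, `|deriv h u - 1| ≤ a_k`, `|h u - u| ≤ a_k` (SZC), and `u^3 ≤ 8 k^3` for `k ≥ 1`, so `u^3 (d2 h u)^2 ≤ 8 k^3 a_k^2`, `u (h' - 1)^2 ≤ 8 k^3 a_k^2`, `(h u - u)^2/u ≤ a_k^2 ≤ k^3 a_k^2`. -/
def SM1_stmt : Prop := ∀ c : ℕ → DD, Adm c → ∃ h : ℝ → ℝ, ContDiff ℝ 2 h ∧ (∀ u, 1 ≤ u → h u = slot c u) ∧
  (∀ u, u ≤ 1 → h u = u) ∧ (∀ u, 1 ≤ u → 1 ≤ h u) ∧
  Tendsto (fun u : ℝ => u ^ 3 * d2 h u ^ 2) atTop (𝓝 0) ∧ Tendsto (fun u : ℝ => u * (deriv h u - 1) ^ 2) atTop (𝓝 0) ∧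
  Tendsto (fun u : ℝ => (h u - u) ^ 2 / u) atTop (𝓝 0)

/-- **SM2** (LONG). uses: nothing.
Proof. Let `W x = ⌊x⌋ + kk (h (uu (fract x)))`, `W (x+1) = W x + 1`; it is enough that `W` is `C^2` near every `x ∈ (0,1)` and near `1`. On `(0,1)`: `W x = 1 - h(u)^(-1/2)`, `u = (1-x)^(-2) > 1`, a composition of `C^2` maps (`h u ≥ 1 > 0`). With `v = h u`:
`W' = h'(u) (u/v)^(3/2)` and `W'' = 2 u^(3/2) (u/v)^(3/2) h''(u) + 3 (u/v)^(5/2) h'(u) (u^(-1/2) (v - u) - u^(1/2) (h'(u) - 1))` (because `du/dx = 2 u^(3/2)`; `(u/v)^(3/2)` etc. may be written with `√`). As `x → 1-`: `u → ∞`,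
`v/u → 1` (`(v-u)^2/u → 0`), so `W' → 1`, `W'' → 0`, `W → 1`. On `[1, 1+η)`, where `u = (2-x)^(-2)` is near `1`, `W` is `1 + (1 - h(u)^(-1/2))` with the same smooth formula; `h = id` for `u ≤ 1` and `h ∈ C^2` give `h(1) = 1`, `h'(1) = 1`, `h''(1) = 0`, so at `x = 1` from the right `W = 1`, `W' = 1`,
`W'' = 2 h''(1) + 3 (0 - 0) = 0`. A continuous function which is `C^2` on both sides of `1` and whose first and second derivatives have the same limits `1` and `0` from both sides is `C^2` near `1`: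
use `hasDerivAt_of_tendsto…` (`hasDerivWithinAt_Iic_of_tendsto_deriv`, `hasDerivWithinAt_Ici_of_tendsto_deriv`) for `W`, then for `W'`; `contDiff_succ_iff_deriv`. (For `x` near `0`: translate by `1`.) -/
def SM2_stmt : Prop := ∀ h : ℝ → ℝ, ContDiff ℝ 2 h → (∀ u, u ≤ 1 → h u = u) → (∀ u, 1 ≤ u → 1 ≤ h u) →
  Tendsto (fun u : ℝ => u ^ 3 * d2 h u ^ 2) atTop (𝓝 0) → Tendsto (fun u : ℝ => u * (deriv h u - 1) ^ 2) atTop (𝓝 0) →
  Tendsto (fun u : ℝ => (h u - u) ^ 2 / u) atTop (𝓝 0) →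
  ContDiff ℝ 2 (fun x : ℝ => (⌊x⌋ : ℝ) + kk (h (uu (Int.fract x))))

/-- **TTT** (LONG). The shift is a conjugation in `G2`. uses: SM2.
Proof. Let `s = Real.smoothTransition` (smooth, monotone, `0` for `x ≤ 0`, `1` for `x ≥ 1`), `S u = u + s (2u - 5/2)`: `S u = u` for `u ≤ 5/4`, `S u = u + 1` for `u ≥ 7/4`, `S' ≥ 1`, so `S` is a `C^2` (even smooth) increasing bijection of `ℝ` whose inverse `S⁻¹` is `C^2`
(inverse function theorem), `S⁻¹ u = u` for `u ≤ 5/4`, `S⁻¹ u = u - 1` for `u ≥ 11/4`. Both satisfy the hypotheses of SM2 (`d2 = 0`, `deriv = 1`, `|h u - u| ≤ 1` for large `u`), so `x ↦ ⌊x⌋ + kk (S (uu (fract x)))` and the same map for `S⁻¹` are `C^2`; they are monotone, of degree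
one and inverse to each other (as in `Defs.lean`: `thf_fract`, `uu_kk`), so they give `T ∈ G2`. For `c` with `c 0 = c 1 = 1`: `slot (sh c) (S u) = S (slot c u)` for all `u ≥ 1`: for `u < 2` both sides are `S u` (`S u < 3` and `(sh c) k = 1` for `k ≤ 2`); for `u ≥ 2`, `S u = u + 1`, `⌊u+1⌋₊ = ⌊u⌋₊ + 1`,
`slot c u ≥ 2`. Hence `thf (sh c) (T x) = T (thf c x)`. -/
def TTT_stmt : Prop := ∃ T ∈ G2, ∀ c : ℕ → DD, (∀ k < 2, c k = 1) → T * Th c * T⁻¹ = Th (sh c)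

/-- **KTH** (short/medium). uses: ADM, SM1, SM2, TTT.
Proof. If `c` is admissible then `thf c` is the function of SM2 for the `h` of SM1, so `C^2`, and `c⁻¹` is admissible, so `Th c ∈ G2` (`(Th c)⁻¹ = Th c⁻¹`). `Th (a b a⁻¹ b⁻¹) = ⁅Th a, Th b⁆`; `Th (sh c * c⁻¹) = T * Th c * T⁻¹ * (Th c)⁻¹ = ⁅T, Th c⁆`. `Subgroup.closure_induction`. -/
def KTH_stmt : Prop := (∀ c : ℕ → DD, Adm c → Th c ∈ G2) ∧ ∀ z ∈ K0, Th z ∈ ⁅G2, G2⁆

end Pool.Agent.helper64.D2
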