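import Mathlib

/-!
# Project dc: (MP_5823cb_al, the group Diff^2_+(S^1)): definitions

`DD` is the group of the `C^2` diffeomorphisms of the line which are the identity outside `(0,1)`, `G2` the group of the lifts of the
orientation preserving `C^2` diffeomorphisms of the circle. `Th c` is the lift which acts on the arc from `1 - 1/√k` to `1 - 1/√(k+1)`
by `c k` (in the coordinate `u = 1/(1-x)^2`, in which the arc is `[k,k+1]`).
-/

set_option autoImplicit false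

open Filter Topology

namespace Pool.Agent.helper64.D2

/-- Second derivative. -/
noncomputable def d2 (f : ℝ → ℝ) : ℝ → ℝ := deriv (deriv f)

/-- `C^2` diffeomorphisms of `ℝ` equal to the identity outside `(0,1)`. -/
def DD : Subgroup (Equiv.Perm ℝ) where
  carrier := {f | ContDiff ℝ 2 f ∧ ContDiff ℝ 2 f.symm ∧ Monotone f ∧ ∀ x : ℝ, x ∉ Set.Ioo (0 : ℝ) 1 → f x = x}
  one_mem' := ⟨contDiff_id, contDiff_id, monotone_id, fun _ _ => rfl⟩
  mul_mem' := by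
    rintro f g ⟨hf1, hf2, hf3, hf4⟩ ⟨hg1, hg2, hg3, hg4⟩
    refine ⟨hf1.comp hg1, hg2.comp hf2, hf3.comp hg3, fun x hx => ?_⟩
    show f (g x) = x
    rw [hg4 x hx, hf4 x hx]
  inv_mem' := by
    rintro f ⟨hf1, hf2, hf3, hf4⟩
    refine ⟨hf2, hf1, ?_, fun x hx => ?_⟩
    · intro a b hab
      by_contra hcon
      have h1 : f.symm b ≤ f.symm a := (not_le.1 hcon).le
      have h2 := hf3 h1
      rw [Equiv.apply_symm_apply, Equiv.apply_symm_apply] at h2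
      exact hcon (by rw [le_antisymm hab h2])
    · show f.symm x = x
      rw [Equiv.symm_apply_eq, hf4 x hx]

/-- The value of an element of `DD` at a point. -/
def ev (g : DD) (x : ℝ) : ℝ := (g : Equiv.Perm ℝ) x

theorem ev_one (x : ℝ) : ev 1 x = x := rfl

theorem ev_mul (g h : DD) (x : ℝ) : ev (g * h) x = ev g (ev h x) := rfl

theorem ev_inv (g : DD) (x : ℝ) : ev g⁻¹ (ev g x) = x := by
  show (g : Equiv.Perm ℝ).symm ((g : Equiv.Perm ℝ) x) = x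
  exact Equiv.symm_apply_apply _ _

theorem ev_inv' (g : DD) (x : ℝ) : ev g (ev g⁻¹ x) = x := by
  show (g : Equiv.Perm ℝ) ((g : Equiv.Perm ℝ).symm x) = x
  exact Equiv.apply_symm_apply _ _

theorem ev_contDiff (g : DD) : ContDiff ℝ 2 (ev g) := g.2.1

theorem ev_mono (g : DD) : Monotone (ev g) := g.2.2.2.1

theorem ev_strictMono (g : DD) : StrictMono (ev g) :=
  (ev_mono g).strictMono_of_injective (g : Equiv.Perm ℝ).injective

theorem ev_out (g : DD) (x : ℝ) (hx : x ∉ Set.Ioo (0 : ℝ) 1) : ev g x = x := g.2.2.2.2 x hx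

theorem ev_ext (g h : DD) (H : ∀ x, ev g x = ev h x) : g = h := by
  apply Subtype.ext
  exact Equiv.ext H

theorem ev_mem_Ico (g : DD) (x : ℝ) (hx : x ∈ Set.Ico (0 : ℝ) 1) : ev g x ∈ Set.Ico (0 : ℝ) 1 := by
  have h0 : ev g 0 = 0 := ev_out g 0 (by simp)
  have h1 : ev g 1 = 1 := ev_out g 1 (by simp)
  constructor
  · calc (0 : ℝ) = ev g 0 := h0.symm
      _ ≤ ev g x := ev_mono g hx.1
  · calc ev g x < ev g 1 := ev_strictMono g hx.2
      _ = 1 := h1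

/-- `g = id + X`. -/
def Rep (g : DD) (X : ℝ → ℝ) : Prop := ∀ x : ℝ, ev g x = x + X x

/-- `|g''| ≤ a`. -/
def Sz (g : DD) (a : ℝ) : Prop := ∀ x : ℝ, |d2 (ev g) x| ≤ a

/-- `X` is `C^2`, zero outside `[p,q]`, `|X''| ≤ a`, and `X''` is Lipschitz with constant `L`. -/
def St (X : ℝ → ℝ) (p q a L : ℝ) : Prop := ContDiff ℝ 2 X ∧ (∀ x : ℝ, x ∉ Set.Icc p q → X x = 0) ∧
  (∀ x : ℝ, |d2 X x| ≤ a) ∧ ∀ x y : ℝ, |d2 X x - d2 X y| ≤ L * |x - y|

/-- Admissible sequences: trivial for `k < 2` and `k^(3/2) * |c_k''| → 0`. -/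
def Adm (c : ℕ → DD) : Prop := (∀ k < 2, c k = 1) ∧
  ∃ a : ℕ → ℝ, Tendsto (fun k : ℕ => (k : ℝ) ^ 3 * a k ^ 2) atTop (𝓝 0) ∧ ∀ k, Sz (c k) (a k)

/-- The shift. -/
def sh (c : ℕ → DD) : ℕ → DD := fun k => c (k - 1)

/-- The subgroup generated by the commutators of admissible sequences and the `(sh c) c⁻¹`, `c` admissible. -/
def K0 : Subgroup (ℕ → DD) := Subgroup.closure
  ({z | ∃ a b : ℕ → DD, Adm a ∧ Adm b ∧ z = a * b * a⁻¹ * b⁻¹} ∪ {z | ∃ c : ℕ → DD, Adm c ∧ z = sh c * c⁻¹})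

/-- The lifts of the orientation preserving `C^2` diffeomorphisms of the circle. -/
def G2 : Subgroup CircleDeg1Liftˣ where
  carrier := {f | ContDiff ℝ 2 ⇑(f : CircleDeg1Lift) ∧ ContDiff ℝ 2 ⇑((f⁻¹ : CircleDeg1Liftˣ) : CircleDeg1Lift)}
  one_mem' := by
    refine ⟨?_, ?_⟩
    · simpa using (contDiff_id : ContDiff ℝ 2 (id : ℝ → ℝ))
    · simpa using (contDiff_id : ContDiff ℝ 2 (id : ℝ → ℝ))
  mul_mem' := by
    rintro f g ⟨hf1, hf2⟩ ⟨hg1, hg2⟩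
    refine ⟨?_, ?_⟩
    · have h : ⇑((f * g : CircleDeg1Liftˣ) : CircleDeg1Lift) = ⇑(f : CircleDeg1Lift) ∘ ⇑(g : CircleDeg1Lift) := by
        funext x; simp
      rw [h]; exact hf1.comp hg1
    · have h : ⇑(((f * g)⁻¹ : CircleDeg1Liftˣ) : CircleDeg1Lift)
          = ⇑((g⁻¹ : CircleDeg1Liftˣ) : CircleDeg1Lift) ∘ ⇑((f⁻¹ : CircleDeg1Liftˣ) : CircleDeg1Lift) := by
        funext x; simp [mul_inv_rev]
      rw [h]; exact hg2.comp hf2
  inv_mem' := by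
    rintro f ⟨hf1, hf2⟩
    exact ⟨hf2, by simpa using hf1⟩

/-- `u ↦ k + c_k (u - k)` for `u ∈ [k,k+1]`. -/
noncomputable def slot (c : ℕ → DD) (u : ℝ) : ℝ := (⌊u⌋₊ : ℝ) + ev (c ⌊u⌋₊) (u - (⌊u⌋₊ : ℝ))

theorem slot_floor (c : ℕ → DD) (u : ℝ) (hu : 0 ≤ u) :
    (⌊u⌋₊ : ℝ) ≤ slot c u ∧ slot c u < (⌊u⌋₊ : ℝ) + 1 ∧ ⌊slot c u⌋₊ = ⌊u⌋₊ := by
  have h1 : u - (⌊u⌋₊ : ℝ) ∈ Set.Ico (0 : ℝ) 1 :=
    ⟨by linarith [Nat.floor_le hu], by linarith [Nat.lt_floor_add_one u]⟩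
  have h2 := ev_mem_Ico (c ⌊u⌋₊) _ h1
  have h3 : (⌊u⌋₊ : ℝ) ≤ slot c u := by unfold slot; linarith [h2.1]
  have h4 : slot c u < (⌊u⌋₊ : ℝ) + 1 := by unfold slot; linarith [h2.2]
  refine ⟨h3, h4, ?_⟩
  rw [Nat.floor_eq_iff (by linarith [(Nat.cast_nonneg ⌊u⌋₊ : (0 : ℝ) ≤ _)])]
  exact ⟨h3, h4⟩

theorem slot_mul (c d : ℕ → DD) (u : ℝ) (hu : 0 ≤ u) : slot (c * d) u = slot c (slot d u) := by
  have h := (slot_floor d u hu).2.2
  have e : slot c (slot d u)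
      = (⌊slot d u⌋₊ : ℝ) + ev (c ⌊slot d u⌋₊) (slot d u - (⌊slot d u⌋₊ : ℝ)) := rfl
  rw [e, h]
  have e2 : slot d u - (⌊u⌋₊ : ℝ) = ev (d ⌊u⌋₊) (u - (⌊u⌋₊ : ℝ)) := by
    unfold slot; ring
  rw [e2]
  rfl

theorem slot_one (u : ℝ) : slot 1 u = u := by
  unfold slot
  rw [Pi.one_apply, ev_one]; ring

theorem slot_mono (c : ℕ → DD) (u v : ℝ) (hu : 0 ≤ u) (huv : u ≤ v) : slot c u ≤ slot c v := by
  have hv : 0 ≤ v := hu.trans huv
  rcases (Nat.floor_mono huv).eq_or_lt with h | h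
  · unfold slot
    rw [← h]
    have := ev_mono (c ⌊u⌋₊) (show u - (⌊u⌋₊ : ℝ) ≤ v - (⌊u⌋₊ : ℝ) by linarith)
    linarith
  · have h1 := (slot_floor c u hu).2.1
    have h2 := (slot_floor c v hv).1
    have h3 : (⌊u⌋₊ : ℝ) + 1 ≤ (⌊v⌋₊ : ℝ) := by exact_mod_cast h
    linarith

/-- The coordinate `u = 1/(1-y)^2`, `y ∈ [0,1)`. -/
noncomputable def uu (y : ℝ) : ℝ := 1 / (1 - y) ^ 2

/-- Its inverse `1 - 1/√u`. -/
noncomputable def kk (u : ℝ) : ℝ := 1 - 1 / √u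

theorem uu_ge (y : ℝ) (hy : y ∈ Set.Ico (0 : ℝ) 1) : 1 ≤ uu y := by
  unfold uu
  have h1 : 0 < 1 - y := by linarith [hy.2]
  have h2 : (1 - y) ^ 2 ≤ 1 := by nlinarith [hy.1]
  rw [le_div_iff₀ (by positivity)]; linarith

theorem kk_mem (u : ℝ) (hu : 1 ≤ u) : kk u ∈ Set.Ico (0 : ℝ) 1 := by
  unfold kk
  have h1 : 1 ≤ √u := Real.one_le_sqrt.2 hu
  have h2 : 0 < 1 / √u := by positivity
  have h3 : 1 / √u ≤ 1 := by rw [div_le_one (by linarith)]; exact h1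
  exact ⟨by linarith, by linarith⟩

theorem uu_kk (u : ℝ) (hu : 1 ≤ u) : uu (kk u) = u := by
  unfold uu kk
  have h1 : 0 < √u := Real.sqrt_pos.2 (by linarith)
  rw [show (1 : ℝ) - (1 - 1 / √u) = 1 / √u by ring, div_pow, Real.sq_sqrt (by linarith)]
  field_simp

theorem kk_uu (y : ℝ) (hy : y ∈ Set.Ico (0 : ℝ) 1) : kk (uu y) = y := by
  unfold uu kk
  have h1 : 0 < 1 - y := by linarith [hy.2]
  rw [show (1 : ℝ) / (1 - y) ^ 2 = (1 / (1 - y)) ^ 2 by rw [div_pow, one_pow],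
    Real.sqrt_sq (by positivity)]
  field_simp
  ring

theorem uu_mono (x y : ℝ) (hxy : x ≤ y) (hy : y < 1) : uu x ≤ uu y := by
  unfold uu
  have h1 : 0 < 1 - y := by linarith
  apply one_div_le_one_div_of_le (by positivity)
  apply pow_le_pow_left₀ h1.le
  linarith

theorem kk_mono (u v : ℝ) (hu : 1 ≤ u) (huv : u ≤ v) : kk u ≤ kk v := by
  unfold kk
  have h1 : 0 < √u := Real.sqrt_pos.2 (by linarith)
  have h2 : √u ≤ √v := Real.sqrt_le_sqrt huv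
  have := one_div_le_one_div_of_le h1 h2
  linarith

theorem slot_ge_one (c : ℕ → DD) (u : ℝ) (hu : 1 ≤ u) : 1 ≤ slot c u := by
  have h1 := (slot_floor c u (by linarith)).1
  have h2 : (1 : ℝ) ≤ (⌊u⌋₊ : ℝ) := by exact_mod_cast Nat.one_le_floor_iff u |>.2 hu
  linarith

/-- The lift defined by a sequence `c` of elements of `DD`, as a function. -/
noncomputable def thf (c : ℕ → DD) (x : ℝ) : ℝ := (⌊x⌋ : ℝ) + kk (slot c (uu (Int.fract x)))

theorem thf_fract (c : ℕ → DD) (x : ℝ) :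
    ⌊thf c x⌋ = ⌊x⌋ ∧ Int.fract (thf c x) = kk (slot c (uu (Int.fract x))) := by
  have h1 : Int.fract x ∈ Set.Ico (0 : ℝ) 1 := ⟨Int.fract_nonneg x, Int.fract_lt_one x⟩
  have h2 := kk_mem _ (slot_ge_one c _ (uu_ge _ h1))
  have h3 : ⌊thf c x⌋ = ⌊x⌋ := by
    rw [Int.floor_eq_iff]; unfold thf
    exact ⟨by linarith [h2.1], by linarith [h2.2]⟩
  refine ⟨h3, ?_⟩
  unfold Int.fract
  rw [h3]; unfold thf
  rw [add_sub_cancel_left]; rfl

theorem thf_mul (c d : ℕ → DD) (x : ℝ) : thf (c * d) x = thf c (thf d x) := by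
  have h1 : Int.fract x ∈ Set.Ico (0 : ℝ) 1 := ⟨Int.fract_nonneg x, Int.fract_lt_one x⟩
  obtain ⟨h2, h3⟩ := thf_fract d x
  have h4 : thf c (thf d x) = (⌊x⌋ : ℝ) + kk (slot c (uu (kk (slot d (uu (Int.fract x)))))) := by
    conv_lhs => unfold thf
    rw [show ((⌊x⌋ : ℝ) + kk (slot d (uu (Int.fract x)))) = thf d x from rfl, h2, h3]
  rw [h4, uu_kk _ (slot_ge_one d _ (uu_ge _ h1)), ← slot_mul c d _ (by linarith [uu_ge _ h1])]
  rfl

theorem thf_one (x : ℝ) : thf 1 x = x := by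
  have h1 : Int.fract x ∈ Set.Ico (0 : ℝ) 1 := ⟨Int.fract_nonneg x, Int.fract_lt_one x⟩
  unfold thf
  rw [slot_one, kk_uu _ h1, Int.floor_add_fract]

theorem thf_mono (c : ℕ → DD) : Monotone (thf c) := by
  intro x y hxy
  have h1 : Int.fract x ∈ Set.Ico (0 : ℝ) 1 := ⟨Int.fract_nonneg x, Int.fract_lt_one x⟩
  have h2 : Int.fract y ∈ Set.Ico (0 : ℝ) 1 := ⟨Int.fract_nonneg y, Int.fract_lt_one y⟩
  rcases (Int.floor_mono hxy).eq_or_lt with h | h
  · have h3 : Int.fract x ≤ Int.fract y := by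
      unfold Int.fract; rw [h]; linarith
    unfold thf
    rw [h]
    have h4 := uu_mono _ _ h3 h2.2
    have h5 := slot_mono c _ _ (by linarith [uu_ge _ h1]) h4
    have h6 := kk_mono _ _ (slot_ge_one c _ (uu_ge _ h1)) h5
    linarith
  · unfold thf
    have h3 := kk_mem _ (slot_ge_one c _ (uu_ge _ h1))
    have h4 := kk_mem _ (slot_ge_one c _ (uu_ge _ h2))
    have h5 : (⌊x⌋ : ℝ) + 1 ≤ (⌊y⌋ : ℝ) := by exact_mod_cast h
    linarith [h3.2, h4.1]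

/-- `thf` as a lift of degree one. -/
noncomputable def thl (c : ℕ → DD) : CircleDeg1Lift where
  toFun := thf c
  monotone' := thf_mono c
  map_add_one' := by
    intro x
    unfold thf
    rw [Int.floor_add_one, Int.fract_add_one]
    push_cast
    ring

/-- The homomorphism `Θ` from the sequences of elements of `DD` to the (units of the) lifts. -/
noncomputable def Th : (ℕ → DD) →* CircleDeg1Liftˣ :=
  MonoidHom.toHomUnits
    { toFun := thl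
      map_one' := by
        ext x
        exact thf_one x
      map_mul' := by
        intro c d
        ext x
        exact thf_mul c d x }

theorem Th_apply (c : ℕ → DD) (x : ℝ) : (Th c : CircleDeg1Lift) x = thf c x := rfl

end Pool.Agent.helper64.D2
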