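import Pool.Agent.helper64.D2.SpecC

/-!
# Project dc: (MP_5823cb_al, Diff^2_+(S^1)): blocks and assembly of the core theorem

Rules: see `SpecS.lean` (here `import Pool.Agent.helper64.D2.SpecD`, `open scoped commutatorElement`).
-/

set_option autoImplicit false

open Filter Topology
open scoped commutatorElement

namespace Pool.Agent.helper64.D2

/-- Beginning of the `i`-th block of slots; block `i` consists of the slots `ks B i ≤ k < ks B (i+1)`. -/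
def ks (B : ℕ) : ℕ → ℕ
  | 0 => 4
  | i + 1 => ks B i + mm (bs B (2 ^ (i + 1))) + 1

/-- **SLQ** (medium). uses: BSQ.
Proof. `bs B n ≤ B 2^n ≤ 2^(log2 B + 1 + n)`, so `mm (bs B (2^j)) ≤ 84 (Nat.log 2 B + 2 + 2^j) + 20 ≤ C_B 2^j`, and the sum over `j ≤ i` is `≤ 2 C_B 2^i`. For the last claim induction on `i`, with `b = bs B (2^(i+1))`: `ks B i ≤ 160 bs B (2^i)` (`i ≥ 1`; for `i = 0` `4 ≤ 160 bs B 1`), `7 bs B (2^i) ≤ 6 b` (BSQ and monotonicity), so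
`ks B (i+1) ≤ 160 (6/7) b + mm b + 1 ≤ 160 b` because `mm b + 1 ≤ 160 b/7` for `b ≥ 100` (`Nat.log 2 b ≤ b/12` for `b ≥ 100`). -/
def SLQ_stmt : Prop := ∀ B : ℕ, 100 ≤ B → StrictMono (ks B) ∧ (∃ C : ℝ, ∀ i, (ks B i : ℝ) ≤ C * 2 ^ i) ∧ ∀ i, ks B (i + 1) ≤ 160 * bs B (2 ^ (i + 1))

/-- **BLK** (medium). The smoothings and their quotients. uses: BAS, DIF, BOX, BXA, RAT, SZC.
Proof. `t_i = 1/2^(c i) ≤ 2^(-20)`, `XM i = av X (-t_i) t_i` (BOX with `p = 34/100`, `q = 56/100`, `a = 1/10000`: Lipschitz constant `2a/(2 t_i) ≤ 2^(c i)`, support in `[33/100,57/100]`), `M i = id + XM i` (DIF; `|XM'| ≤ a` by BAS). BXA: `|XM_i'' - X''| ≤ w i`, also `|XM_(i+1)'' - X''| ≤ w i` (the hypothesis at scale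
`t_i` implies it at scale `t_(i+1) ≤ t_i`), `|XM_i' - X'| ≤ a t_i`. RAT for `g = M i`, `c = M (i+1)` (`e = 2 w i`; `e = 2 a t_i`; `L = 2^(c (i+1))/10000`, `6 L + 1 ≤ 2^(c (i+1))`) and for `g = f`, `c = M i` (`e = w i`). -/
def BLK_stmt : Prop := ∀ (f : DD) (X : ℝ → ℝ) (c : ℕ → ℕ) (w : ℕ → ℝ), Rep f X → ContDiff ℝ 2 X → (∀ x, x ∉ Set.Icc (34 / 100 : ℝ) (56 / 100) → X x = 0) →
  (∀ x, |d2 X x| ≤ 1 / 10000) → StrictMono c → 20 ≤ c 0 → (∀ i x y, |x - y| ≤ 1 / 2 ^ (c i) → |d2 X x - d2 X y| ≤ w i) →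
  ∃ (M : ℕ → DD) (XM XG : ℕ → ℝ → ℝ), ∀ i, Rep (M i) (XM i) ∧ St (XM i) (33 / 100) (57 / 100) (1 / 10000) (2 ^ (c i)) ∧
    Rep (M i * (M (i + 1))⁻¹) (XG i) ∧ St (XG i) (33 / 100) (57 / 100) (4 * w i) (2 ^ (c (i + 1))) ∧
    (∀ x, |deriv (XG i) x| ≤ 1 / 2 ^ (c i)) ∧ Sz (f * (M i)⁻¹) (2 * w i)

/-- **THA** (LONG). The first chain. uses: BLK, RP, BSQ, SLQ, GLU, PLC, ADM, SZC.
Proof. Replace `w i` by `min (w i) (1/5000)` (`|d2 X x - d2 X y| ≤ 2/10000`). `B` so large that RP applies for `b ≥ B`, and `2^c ≥ c^900` for `c ≥ B`. `c i = bs B (2^i)`, `M i, XM i, XG i` from BLK, `G_i = M i (M (i+1))⁻¹`, `P_i = f (M i)⁻¹`, `P_(i+1) = P_i G_i`. RP for `R = G_i`, `b = c (i+1)`, `ε_i = 4 w i ≤ 1/100`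
(`|XG_i'| ≤ 1/2^(c i) ≤ 1/(c i)^900 ≤ 1/b^300` because `b ≤ (c i)^3`, BSQ): sequences `R^i, u^i, v^i`; `F i = R^i (mm b)`. `V 0 = V 1 = 1`, `V 2 = f`, `V 3 = f (M 0)⁻¹ = P_0`; for `ks B i ≤ k < ks B (i+1)`, `j = k - ks B i`: `V k = P_(i+1) (R^i (j+1))⁻¹` if `j < mm b`, and `V k = P_(i+1)` if `j = mm b` (that is
`k = ks B (i+1) - 1`); `U k = v^i j`, `W k = u^i j` for `j < mm b`, `U k = W k = 1` for `j = mm b` and for `k < 4` (GLU). `V = sh V * (…)` slot by slot: for `0 < j < mm b`: `V (k-1)⁻¹ V k = R^i j (R^i (j+1))⁻¹ = ⁅u^i j, v^i j⁆⁻¹ = ⁅v^i j, u^i j⁆`; for `j = 0` the same since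
`V (k-1) = P_i = P_(i+1) G_i⁻¹ = P_(i+1) (R^i 0)⁻¹`; for `j = mm b`: `V (k-1)⁻¹ V k = R^i (mm b) = F i`; for `k = 2, 3`: `f`, `(M 0)⁻¹`. Sizes in block `i`: `P_(i+1)`: `2 w (i+1)`; `R^i`: `2 ε_i`; `V k`: `≤ 100 (w i + w (i+1))`; `U k`: `32 w i`, `W k`: `C/b^2`, `b ≥ 2^(i+1)`; and `k^3 ≤ C 8^i`, so all are admissible. -/
def THA_stmt : Prop := ∃ B0 : ℕ, ∀ B : ℕ, B0 ≤ B → ∀ (f : DD) (X : ℝ → ℝ) (w : ℕ → ℝ), Rep f X → ContDiff ℝ 2 X →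
  (∀ x, x ∉ Set.Icc (34 / 100 : ℝ) (56 / 100) → X x = 0) → (∀ x, |d2 X x| ≤ 1 / 10000) →
  (∀ i x y, |x - y| ≤ 1 / 2 ^ (bs B (2 ^ i)) → |d2 X x - d2 X y| ≤ w i) → Tendsto (fun i : ℕ => 8 ^ i * w i ^ 2) atTop (𝓝 0) →
  ∃ (V U W F : ℕ → DD) (M0 : DD) (X0 : ℝ → ℝ) (XF : ℕ → ℝ → ℝ), Adm V ∧ Adm U ∧ Adm W ∧ Rep M0 X0 ∧
    St X0 (33 / 100) (57 / 100) (1 / 10000) (2 ^ (bs B 1)) ∧
    (∀ i, Rep (F i) (XF i) ∧ St (XF i) (3 / 10) (6 / 10) (1 / (bs B (2 ^ (i + 1)) : ℝ) ^ 40) (2 ^ (2 * bs B (2 ^ (i + 1))))) ∧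
    V = sh V * (Pi.mulSingle 2 f * Pi.mulSingle 3 M0⁻¹ * place (fun i => ks B (i + 1) - 1) F * ⁅U, W⁆)

/-- **THB** (medium/LONG). uses: THA, HTH, RSL, LPK, KRS, KSG, BSQ, SLQ, PLC, ADM, SZC.
Proof. Let `y` be the last bracket of THA; `y = (sh V)⁻¹ V` is admissible (ADM) and `1 * V = sh V * y`, so `y⁻¹ ∈ K0` (KRS), `y ∈ K0`. `⁅U,W⁆ ∈ K0` (a generator, `Adm U`, `Adm W`). `Pi.mulSingle 3 M0⁻¹ ∈ K0` by LPK (for `M0`), KSG. `place (fun i => 160 bs B (2^(i+1))) F = place (fun n => 160 bs B n) F'` with `F' n = F i` if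
`n = 2^(i+1)` and `1` otherwise, and this is in `K0` by HTH (`B` large). RSL with `k i = ks B (i+1) - 1`, `k' i = 160 bs B (2^(i+1))`, `a i = 1/(bs B (2^(i+1)))^40` (`a i (k' i)^4 2^i ≤ 160^4` since `2^i ≤ 2^(2^(i+1)) ≤ (bs B (2^(i+1)))^8`): `place (fun i => ks B (i+1) - 1) F ∈ K0`. So `Pi.mulSingle 2 f ∈ K0`. -/
def THB_stmt : Prop := ∃ B0 : ℕ, ∀ B : ℕ, B0 ≤ B → ∀ (f : DD) (X : ℝ → ℝ) (w : ℕ → ℝ), Rep f X → ContDiff ℝ 2 X →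
  (∀ x, x ∉ Set.Icc (34 / 100 : ℝ) (56 / 100) → X x = 0) → (∀ x, |d2 X x| ≤ 1 / 10000) →
  (∀ i x y, |x - y| ≤ 1 / 2 ^ (bs B (2 ^ i)) → |d2 X x - d2 X y| ≤ w i) → Tendsto (fun i : ℕ => 8 ^ i * w i ^ 2) atTop (𝓝 0) →
  Pi.mulSingle 2 f ∈ K0

/-- **COR** (medium). uses: THB, KTH, BSQ.
Proof. `e0 = 1/10000`. `w i = sSup {|d2 X x - d2 X y| : |x - y| ≤ t_i}`, `t_i = 1/2^(bs B (2^i))` (bounded by `2/10000`, nonempty). With `n = 2^i`: `2^n ≤ (bs B n)^8`, so `log (1/t_i) = bs B n log 2 ≥ (1/2) 2^(n/8)`, and `log log (1/t_i) ≥ (n/8) log 2 - log 2 ≥ n/20` for `i` large; ML: `w_i^2 (n/20)^3 ≤ e` for `i ≥ i(e)`, so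
`8^i w_i^2 ≤ 8000 e` (`n^3 = 8^i`). THB and KTH. -/
def COR_stmt : Prop := CORE_stmt

end Pool.Agent.helper64.D2
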