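import Pool.Agent.helper64.D2.SpecC

/-!
# Project dc: (MP_5823cb_al, Diff^2_+(S^1)): the random steps (result: `RP_stmt`)

Rules: see `SpecS.lean` (here `import Pool.Agent.helper64.D2.SpecR`, `open Filter Topology`, `open scoped commutatorElement`).
Notation in the proofs: `X' = deriv X`, `X'' = d2 X`, `H u = u + X u / 2` (`Hh X`), `G` its inverse, `v(u,θ) = G (H u - θ)`, `U(w,θ) = G (H w + θ)`.
-/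

set_option autoImplicit false

open Filter Topology
open scoped commutatorElement

namespace Pool.Agent.helper64.D2

/-- `H u = u + X u / 2`. -/
noncomputable def Hh (X : ℝ → ℝ) (u : ℝ) : ℝ := u + X u / 2

/-- The exponential moment `∫_0^1 (cosh (μ X'') - 1)`. -/
noncomputable def KK (X : ℝ → ℝ) (μ : ℝ) : ℝ := ∫ x in (0 : ℝ)..1, (Real.cosh (μ * d2 X x) - 1)

/-- The moment of the sum `X''(u) + X''(v(u,θ))`, `v(u,θ) = G (H u - θ)`. -/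
noncomputable def PH (X G : ℝ → ℝ) (μ θ : ℝ) : ℝ :=
  ∫ u in (0 : ℝ)..1, (Real.cosh (μ * (d2 X u + d2 X (G (Hh X u - θ)))) - 1)

/-- Standing hypotheses: `X` is `C^2`, zero outside `[p,q] ⊆ [1/4,3/4]`, `|X'| ≤ lam ≤ 1/8`, `|X''| ≤ a`. -/
def SH (X : ℝ → ℝ) (p q a lam : ℝ) : Prop := ContDiff ℝ 2 X ∧ (∀ x, x ∉ Set.Icc p q → X x = 0) ∧ (∀ x, |deriv X x| ≤ lam) ∧
  (∀ x, |d2 X x| ≤ a) ∧ 1 / 4 ≤ p ∧ p ≤ q ∧ q ≤ 3 / 4 ∧ 0 ≤ lam ∧ lam ≤ 1 / 8 ∧ 0 ≤ a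

/-- `G` is the inverse of `H`. -/
def IsG (X G : ℝ → ℝ) : Prop := (∀ u, G (Hh X u) = u) ∧ (∀ y, Hh X (G y) = y) ∧ Continuous G

/-- **RG1** (short/medium). The inverse of `H`. uses: nothing.
Proof. `H' = 1 + X'/2 ≥ 15/16`, `H` is continuous, strictly increasing, equal to the identity outside `[p,q]`, so an increasing bijection (`StrictMono.orderIso` / `StrictMono` and `Continuous.surjective`), the inverse `G` is continuous (`OrderIso.continuous`), monotone, and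
`HasDerivAt.of_local_left_inverse` gives its derivative. `G y = y` for `y ∉ [p,q]` because `H y = y`. -/
def RG1_stmt : Prop := ∀ (X : ℝ → ℝ) (p q a lam : ℝ), SH X p q a lam → (∀ u, HasDerivAt (Hh X) (1 + deriv X u / 2) u) ∧ StrictMono (Hh X) ∧
  ∃ G : ℝ → ℝ, IsG X G ∧ StrictMono G ∧ (∀ y, y ∉ Set.Icc p q → G y = y) ∧ ∀ y, HasDerivAt G (1 / (1 + deriv X (G y) / 2)) y

/-- **RC1** (short). The `cosh` inequality. uses: nothing.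
Proof. `cosh (x+y) = cosh x cosh y + sinh x sinh y`; with `s t = sinh t - t`: `cosh x cosh y - 1 = (cosh x - 1) + (cosh y - 1) + (cosh x - 1)(cosh y - 1)` and `sinh x sinh y = x y + x s(y) + y s(x) + s(x) s(y)`, `|s(t)| ≤ cosh t - 1` (for `t ≥ 0`: `sinh t - t ≥ 0` and `cosh t - 1 - sinh t + t = e^(-t) - 1 + t ≥ 0`; `s` is odd). -/
def RC1_stmt : Prop := (∀ t : ℝ, |Real.sinh t - t| ≤ Real.cosh t - 1) ∧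
  ∀ x y : ℝ, Real.cosh (x + y) - 1 ≤ (Real.cosh x - 1) + (Real.cosh y - 1) + 2 * ((Real.cosh x - 1) * (Real.cosh y - 1)) + x * y +
    x * (Real.sinh y - y) + y * (Real.sinh x - x)

/-- **RC2** (short). Perturbation, and elementary bounds. uses: nothing.
Proof. `cosh (z+e) - 1 = (cosh z - 1) cosh e + (cosh e - 1) + sinh z sinh e`, `|sinh z| ≤ (cosh z - 1) + |z|` (RC1 first part, or directly), so `≤ (cosh z - 1)(cosh e + |sinh e|) + (cosh e - 1) + |z| |sinh e|`, `cosh e + |sinh e| = exp |e| ≤ 1 + 2η`, `cosh e - 1 ≤ e^2 ≤ η`, `|sinh e| ≤ 2 |e| ≤ 2η` for `|e| ≤ η ≤ 1`, and `1, |z| ≤ Z`: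
the sum of the last two terms is at most `η + 2 η Z ≤ 3 η Z`. -/
def RC2_stmt : Prop := (∀ z e η Z : ℝ, |e| ≤ η → η ≤ 1 → |z| ≤ Z → 1 ≤ Z →
    Real.cosh (z + e) - 1 ≤ (1 + 2 * η) * (Real.cosh z - 1) + 3 * η * Z) ∧
  (∀ t : ℝ, |t| ≤ 1 → Real.cosh t - 1 ≤ t ^ 2) ∧ ∀ t : ℝ, Real.exp t / 2 ≤ Real.cosh t

/-- **RI1** (medium). Substitution `θ ↦ v(u,θ)`. uses: RG1.
Proof. `w = G (H u - θ)`, `θ = H u - H w`, `dθ = - H'(w) dw`, `w` runs from `u` (`θ = 0`) to `G (H u - β)`. Precisely: `∫_(G(H u - β))^u g(w) H'(w) dw = ∫_(G (H u - β))^u (g ∘ G)(H w) H'(w) dw = ∫_(H u - β)^(H u) g (G y) dy` (`intervalIntegral.integral_comp_mul_deriv` for `H`; `deriv X` is continuous), and `y = H u - θ`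
(`intervalIntegral.integral_comp_sub_left`). The second formula in the same way with `y = H w + θ` (`intervalIntegral.integral_comp_add_left`) and `H'(U) dU = dy`. -/
def RI1_stmt : Prop := ∀ (X G : ℝ → ℝ) (p q a lam : ℝ), SH X p q a lam → IsG X G → ∀ g : ℝ → ℝ, Continuous g → ∀ u β : ℝ,
  (∫ θ in (0 : ℝ)..β, g (G (Hh X u - θ))) = (∫ w in (G (Hh X u - β))..u, g w * (1 + deriv X w / 2)) ∧
  (∫ θ in (0 : ℝ)..β, g (G (Hh X u + θ))) = ∫ w in u..(G (Hh X u + β)), g w * (1 + deriv X w / 2)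

/-- **RI2** (medium). The integrals over `θ`. uses: RG1, RI1.
Proof. Let `0 ≤ β`. (1) RI1 for `g = cosh (μ X'') - 1 ≥ 0`: the integral is over `w ∈ [G (H u - β), u]`, `H' ≤ 1 + lam/2`, and the integral of the nonnegative function `g`, which vanishes outside `[1/4,3/4]`, over any interval is at most `KK X μ`. (2) RI1 for `g = μ X''`: `μ ∫ X''(w) (1 + X'(w)/2) dw = μ [X' + X'^2/4]`, so the absolute value is at most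
`2 μ (lam + lam^2/4) ≤ 3 μ lam`. (3) RI1, second formula, for `g = μ X''/(1 + X'/2)`: `μ ∫_w^U X'' = μ (X'(U) - X'(w))`. -/
def RI2_stmt : Prop := ∀ (X G : ℝ → ℝ) (p q a lam : ℝ), SH X p q a lam → IsG X G → ∀ u β μ : ℝ, 0 ≤ β → 0 ≤ μ →
  (∫ θ in (0 : ℝ)..β, (Real.cosh (μ * d2 X (G (Hh X u - θ))) - 1)) ≤ (1 + lam / 2) * KK X μ ∧
  |∫ θ in (0 : ℝ)..β, μ * d2 X (G (Hh X u - θ))| ≤ 3 * μ * lam ∧
  |∫ θ in (0 : ℝ)..β, μ * d2 X (G (Hh X u + θ)) / (1 + deriv X (G (Hh X u + θ)) / 2)| ≤ 2 * μ * lam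

/-- **RI3** (medium). Substitution `u ↦ v(u,θ)` for a fixed `θ`. uses: RG1.
Proof. Let `φ(w) = G (H w + θ)`, `φ' = H'(w)/H'(φ(w))` (RG1, chain rule), `φ(-θ) = 0` and `φ(1-θ) = 1` because `H = G = id` outside `[1/4,3/4]` (`H(-θ) + θ = 0`, `H (1-θ) + θ = 1`; `0 ≤ θ ≤ 1/4`, `1 - θ ≥ 3/4`: for `1 - θ = 3/4` `X (3/4) = 0` by continuity). `∫_0^1 F(u, G (H u - θ)) du = ∫_(-θ)^(1-θ) F(φ w, w) φ'(w) dw`
(`intervalIntegral.integral_comp_mul_deriv`; `G (H (φ w) - θ) = w`). `F(u,w) = 0` for `w ∉ [1/4,3/4]`, so the interval may be replaced by `[0,1]`. -/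
def RI3_stmt : Prop := ∀ (X G : ℝ → ℝ) (p q a lam : ℝ), SH X p q a lam → IsG X G → ∀ (F : ℝ → ℝ → ℝ) (θ : ℝ), Continuous (fun z : ℝ × ℝ => F z.1 z.2) →
  (∀ u w, w ∉ Set.Icc (1 / 4 : ℝ) (3 / 4) → F u w = 0) → 0 ≤ θ → θ ≤ 1 / 4 →
  (∫ u in (0 : ℝ)..1, F u (G (Hh X u - θ))) =
    ∫ w in (0 : ℝ)..1, F (G (Hh X w + θ)) w * ((1 + deriv X w / 2) / (1 + deriv X (G (Hh X w + θ)) / 2))

/-- **RI4** (medium). The mixed term. uses: RG1, RI2, RI3, RC1.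
Proof. Write `x(u) = μ X''(u)`, `s t = sinh t - t`. RI3 with `F u w = x(u) s(x(w))` (`s 0 = 0`): the inner integral is `∫_0^1 x(U(w,θ)) s(x(w)) H'(w)/H'(U(w,θ)) dw`. Exchange the integrals over `θ ∈ [0,β]` and `w ∈ [0,1]` (continuous integrand; `intervalIntegral_integral_interchange` / `MeasureTheory.integral_integral_swap`):
`∫_0^1 s(x(w)) H'(w) (∫_0^β x(U)/H'(U) dθ) dw`, and by RI2 (third) and RC1 it is at most `∫_0^1 (cosh (x(w)) - 1) (1 + lam/2) 2 μ lam dw ≤ 3 μ lam KK X μ`. -/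
def RI4_stmt : Prop := ∀ (X G : ℝ → ℝ) (p q a lam : ℝ), SH X p q a lam → IsG X G → ∀ β μ : ℝ, 0 ≤ β → β ≤ 1 / 4 → 0 ≤ μ →
  |∫ θ in (0 : ℝ)..β, ∫ u in (0 : ℝ)..1, μ * d2 X u * (Real.sinh (μ * d2 X (G (Hh X u - θ))) - μ * d2 X (G (Hh X u - θ)))| ≤
    3 * μ * lam * KK X μ

/-- **RAV** (LONG). The average over `θ`. uses: RG1, RC1, RI2, RI3, RI4.
Proof. `x = μ X''(u)`, `y = μ X''(v(u,θ))`, `k t = cosh t - 1`, `s t = sinh t - t`. By RC1 `k(x+y) ≤ k x + k y + 2 k x k y + x y + x s(y) + y s(x)`. Integrate over `(u,θ) ∈ [0,1] × [0,β]` (all functions continuous, order of integration exchangeable). `∫∫ k x = β K`; `∫_0^1 k y du = ∫_0^1 k(μ X''(w)) H'(w)/H'(U) dw ≤ (1 + 2 lam) K`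
for every `θ` (RI3; `(1 + lam/2)/(1 - lam/2) ≤ 1 + 2 lam`); `∫∫ k x k y ≤ (1 + lam/2) K^2` (RI2 (1)); `|∫∫ x y| ≤ ∫_0^1 |x| 3 μ lam ≤ 3 μ^2 a lam` (RI2 (2)); `|∫∫ y s(x)| ≤ 3 μ lam K` (RI2 (2), RC1); `|∫∫ x s(y)| ≤ 3 μ lam K` (RI4). Here `K = KK X μ ≥ 0`. Sum:
`∫_0^β PH dθ ≤ β (2 + 2 lam) K + (2 + lam) K^2 + 3 μ^2 a lam + 6 μ lam K =: β M`. `PH` is a continuous function of `θ`, so some `θ ∈ (0,β]` has `PH X G μ θ ≤ M` (otherwise the integral would be larger than `β M`). Finally, with `q = 2K/β`: `1 + 2M/β = 1 + (2 + 2 lam) q + (1 + lam/2) q^2 + 6 μ^2 a lam/β^2 + 6 (μ lam/β) q ≤ (1 + σ)(1 + q)^2`,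
`σ = lam + 6 μ lam/β + 6 μ^2 a lam/β^2` (note `(1+σ)(1+q)^2 = 1 + σ + (1+σ)(2q + q^2)`). -/
def RAV_stmt : Prop := ∀ (X G : ℝ → ℝ) (p q a lam : ℝ), SH X p q a lam → IsG X G → ∀ β μ : ℝ, 0 < β → β ≤ 1 / 4 → 0 ≤ μ →
  0 ≤ KK X μ ∧ ∃ θ : ℝ, 0 < θ ∧ θ ≤ β ∧ 1 + 2 * PH X G μ θ / β ≤
    (1 + (lam + 6 * μ * lam / β + 6 * μ ^ 2 * a * lam / β ^ 2)) * (1 + 2 * KK X μ / β) ^ 2

/-- **RPA** (medium). One averaging step with the function `v` (compare `PAS_stmt`). uses: STP, GST, SMA, DIF, SZC, BAS, RG1.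
Proof. `h = id + X/2 ∈ DD` (DIF), `T` from SMA (`|θ| ≤ 1/C`), `v, X'` from STP with this `θ`; `v u = G (H u - θ)` because both have the same image under `H` (injective). `x2 = R h⁻¹`, `⁅T, x2⁆ * R = id + X'` (GST; `ev T y = y + θ` on `[p,q] ⊆ [1/5,4/5]`). `Sz x2`: `Sz R a`, `Sz h (a/2)`, `Sz h⁻¹ a`, product `≤ a + a + 4a^2 ≤ 3a`. -/
def RPA_stmt : Prop := ∃ C : ℝ, 1 ≤ C ∧ ∀ (R : DD) (X G : ℝ → ℝ) (p q a L lam θ : ℝ), Rep R X → SH X p q a lam → IsG X G →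
  (∀ x y, |d2 X x - d2 X y| ≤ L * |x - y|) → a ≤ 1 / 8 → 0 ≤ L → q + θ ≤ 3 / 4 → 0 < θ → C * θ ≤ 1 →
  ∃ (T x2 : DD) (X' : ℝ → ℝ), Rep (⁅T, x2⁆ * R) X' ∧ St X' p (q + θ) (a * (1 + 2 * lam)) (L * (1 + 4 * lam) + 3 * a ^ 2) ∧
    (∀ x, |deriv X' x| ≤ lam * (1 + lam)) ∧ Sz T (C * θ) ∧ Sz x2 (3 * a) ∧
    ∀ u, |d2 X' u - (d2 X u + d2 X (G (Hh X u - θ))) / 2| ≤ 2 * lam * a

/-- **RST** (medium). The random step. uses: RG1, RC2, RAV, RPA.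
Proof. `G` from RG1, `θ ∈ (0,β]` from RAV, step from RPA (`C` of RPA; `C β ≤ 1`, `q + β ≤ 3/4`). With `z = μ (X''(u) + X''(v))`, `|z| ≤ Z := max 1 (2 μ a)` and `2 μ X⁺''(u) = z + e`, `|e| ≤ η := 4 μ lam a ≤ 1`: RC2 gives `KK X⁺ (2μ) ≤ (1 + 2η) PH X G μ θ + 3 η Z`, so
`1 + 2 KK X⁺ (2μ)/β ≤ (1 + 2η)(1 + 2 PH/β) + 6 η Z/β ≤ ((1 + 2η)(1 + σ) + 6 η Z/β) (1 + 2 KK X μ/β)^2`, and `(1+2η)(1+σ) + 6ηZ/β ≤ 1 + τ` is the hypothesis. -/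
def RST_stmt : Prop := ∃ C : ℝ, 1 ≤ C ∧ ∀ (R : DD) (X : ℝ → ℝ) (p q a L lam β μ τ : ℝ), Rep R X → SH X p q a lam →
  (∀ x y, |d2 X x - d2 X y| ≤ L * |x - y|) → a ≤ 1 / 8 → 0 ≤ L → q + β ≤ 3 / 4 → 0 < β → C * β ≤ 1 → 0 ≤ μ → 4 * μ * lam * a ≤ 1 →
  (1 + 2 * (4 * μ * lam * a)) * (1 + (lam + 6 * μ * lam / β + 6 * μ ^ 2 * a * lam / β ^ 2)) +
      6 * (4 * μ * lam * a) * (max 1 (2 * μ * a)) / β ≤ 1 + τ →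
  ∃ (T x2 : DD) (X' : ℝ → ℝ), Rep (⁅T, x2⁆ * R) X' ∧ St X' p (q + β) (a * (1 + 2 * lam)) (L * (1 + 4 * lam) + 3 * a ^ 2) ∧
    (∀ x, |deriv X' x| ≤ lam * (1 + lam)) ∧ Sz T (C * β) ∧ Sz x2 (3 * a) ∧
    1 + 2 * KK X' (2 * μ) / β ≤ (1 + τ) * (1 + 2 * KK X μ / β) ^ 2

/-- **RNU** (medium). Numerical facts for large `b` (`m = mm b`). uses: nothing.
Proof. `2^(Nat.log 2 b) ≤ b < 2^(Nat.log 2 b + 1)`, so `b^84 2^20 ≤ 2^m ≤ 2^104 b^84`, `m ≤ 84 b + 104` etc.; everything else is a comparison of powers of `b`. (1) the steps: `mm b/b^2 ≤ 2/100`; (2) `(1 + 8/b^300)^m ≤ 2`: `m 8/b^300 ≤ 1/2`; (3) for `0 ≤ μ ≤ 2^104 b^42`, `0 ≤ lam ≤ 2/b^300`, `0 ≤ a ≤ 1/50`, `β = 1/b^2`: the left hand side of the last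
hypothesis of RST is at most `1 + 1/b^200` (all terms are at most `2^400 b^(-205)`), and `4 μ lam a ≤ 1`; (4) `2^b + 3 m/100 + …`: see (2). (5) the final comparison: with `δ = 1/b^40`, `μ0 = 1/(8 b^42)`, `0 ≤ ε ≤ 1/100`: `2^m μ0 δ/2 = 2^m/(16 b^82)`; `2^m (2 μ0^2 ε^2 b^2 + 1/b^200) ≤ 2^m/(64 b^82)`, `log (2 + 2^(b+4) b^40) ≤ 3 b` and
`2^m (1/16 - 1/64)/b^82 ≥ 2^20 b^2/32 > 3b`. -/
def RNU_stmt : Prop := ∃ B0 : ℕ, 2 ≤ B0 ∧ ∀ b : ℕ, B0 ≤ b →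
  (mm b : ℝ) / (b : ℝ) ^ 2 ≤ 2 / 100 ∧ (1 + 8 / (b : ℝ) ^ 300) ^ mm b ≤ 2 ∧ (2 : ℝ) ^ mm b ≤ 2 ^ 104 * (b : ℝ) ^ 84 ∧
  (2 * (2 ^ b + 3 * (mm b : ℝ)) ≤ (2 : ℝ) ^ (b + 2)) ∧
  (∀ μ lam a β : ℝ, β = 1 / (b : ℝ) ^ 2 → 0 ≤ μ → μ ≤ 2 ^ 104 * (b : ℝ) ^ 42 → 0 ≤ lam → lam ≤ 2 / (b : ℝ) ^ 300 → 0 ≤ a → a ≤ 1 / 50 →
    4 * μ * lam * a ≤ 1 ∧
    (1 + 2 * (4 * μ * lam * a)) * (1 + (lam + 6 * μ * lam / β + 6 * μ ^ 2 * a * lam / β ^ 2)) +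
      6 * (4 * μ * lam * a) * (max 1 (2 * μ * a)) / β ≤ 1 + 1 / (b : ℝ) ^ 200) ∧
  ∀ ε : ℝ, 0 ≤ ε → ε ≤ 1 / 100 → 2 + (2 : ℝ) ^ (b + 4) * (b : ℝ) ^ 40 * Real.exp ((2 : ℝ) ^ mm b * (2 * (1 / (8 * (b : ℝ) ^ 42)) ^ 2 * ε ^ 2 * (b : ℝ) ^ 2 + 1 / (b : ℝ) ^ 200)) <
    Real.exp ((2 : ℝ) ^ mm b * (1 / (8 * (b : ℝ) ^ 42)) * (1 / (b : ℝ) ^ 40) / 2)

/-- **RCH** (LONG). The sequence of random steps. uses: RST, RNU, SZC, BAS.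
Proof. `β = 1/b^2`, `μ_j = 2^j μ0`, `μ0 = 1/(8 b^42)`, `m = mm b`. Apply RST for `j < m` (recursion with dependent choice) with `X_0 = X`, `[p_j,q_j] = [32/100, 58/100 + j β]` (inside `[3/10,6/10]` by RNU), `lam_j`: `lam_0 = 1/b^300`, `lam_(j+1) = lam_j (1 + lam_j)`, `lam_j ≤ lam_0 (1 + 2 lam_0)^j ≤ 2 lam_0`; `a_j ≤ ε (1 + 4 lam_0)^j ≤ 2ε ≤ 1/50`;
`L_(j+1) = L_j (1 + 8 lam_0) + 3 a_j^2`, `L_j ≤ (1 + 8 lam_0)^j (2^b + 3 j) ≤ 2 (2^b + 3 m) ≤ 2^(b+2)` (use simpler monotone upper bounds in the induction, e.g. `lam_j ≤ lam_0 (1 + 8 lam_0)^j`, `a_j ≤ ε (1 + 8 lam_0)^j`, `L_j ≤ (1 + 8 lam_0)^j (2^b + 3 j)`; `SH` and the Lipschitz property are monotone in the constants); `μ_j ≤ 2^104 b^42` since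
`2^m ≤ 2^104 b^84`; `τ = 1/b^200` (RNU). `R' (j+1) = R' j`, `u j = v j = 1` for `j ≥ m`. `C β ≤ 1` for `b ≥ B0`. The moments: `q_j = 2 KK X_j μ_j/β`, `1 + q_(j+1) ≤ (1+τ)(1+q_j)^2`, so `1 + q_j ≤ exp (2^j (q_0 + τ))` by induction: `log (1+q_(j+1)) ≤ τ + 2 log (1+q_j)`; precisely prove `(1 + τ)(1 + q_j) ≤ exp (2^j (q_0 + τ))`,
from `(1+τ)(1+q_(j+1)) ≤ ((1+τ)(1+q_j))^2`. `q_0 ≤ 2 μ0^2 ε^2/β` by RC2 (second part; `|μ0 X''| ≤ μ0 ε ≤ 1`). -/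
def RCH_stmt : Prop := ∃ (B0 : ℕ) (C : ℝ), 1 ≤ C ∧ ∀ b : ℕ, B0 ≤ b → ∀ (R : DD) (X : ℝ → ℝ) (ε : ℝ), 0 ≤ ε → ε ≤ 1 / 100 → Rep R X →
  St X (32 / 100) (58 / 100) ε (2 ^ b) → (∀ x, |deriv X x| ≤ 1 / (b : ℝ) ^ 300) →
  ∃ (R' u v : ℕ → DD) (X' : ℝ → ℝ), R' 0 = R ∧ (∀ j, R' (j + 1) = ⁅u j, v j⁆ * R' j) ∧
    (∀ j, Sz (R' j) (2 * ε) ∧ Sz (u j) (C / (b : ℝ) ^ 2) ∧ Sz (v j) (8 * ε)) ∧ (∀ j ≥ mm b, u j = 1 ∧ v j = 1) ∧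
    Rep (R' (mm b)) X' ∧ St X' (3 / 10) (6 / 10) (2 * ε) (2 ^ (b + 2)) ∧
    1 + 2 * KK X' ((2 : ℝ) ^ mm b * (1 / (8 * (b : ℝ) ^ 42))) * (b : ℝ) ^ 2 ≤
      Real.exp ((2 : ℝ) ^ mm b * (2 * (1 / (8 * (b : ℝ) ^ 42)) ^ 2 * ε ^ 2 * (b : ℝ) ^ 2 + 1 / (b : ℝ) ^ 200))

/-- **RLI** (medium). Lipschitz functions with small moment are small. uses: RC2.
Proof. Suppose `|X''(x0)| > δ`; `x0 ∈ [3/10,6/10]`. On `[x0, x0 + ℓ]`, `ℓ = δ/(2L) ≤ 1/10`, `|X''| ≥ δ/2`, so `KK X μ ≥ ℓ (cosh (μ δ/2) - 1) ≥ ℓ (exp (μ δ/2)/2 - 1)` (the integrand is nonnegative, `[x0,x0+ℓ] ⊆ [0,1]`), i.e. `exp (μ δ/2) ≤ 2 + 2 KK X μ/ℓ = 2 + 4 L KK X μ/δ`. -/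
def RLI_stmt : Prop := ∀ (X : ℝ → ℝ) (a L μ δ : ℝ), St X (3 / 10) (6 / 10) a L → 0 < δ → δ ≤ 1 / 5 → 1 ≤ L → 0 ≤ μ →
  2 + 4 * L * KK X μ / δ < Real.exp (μ * δ / 2) → ∀ x, |d2 X x| ≤ δ

/-- **RPF** (short/medium). uses: RCH, RLI, RNU.
Proof. RCH; `L = 2^(b+2)`, `δ = 1/b^40`, `μ = 2^m μ0`: `4 L KK/δ = 2^(b+4) b^40 KK ≤ 2^(b+4) b^40 (1 + 2 KK b^2)` and RNU (last part) give the hypothesis of RLI. -/
def RPF_stmt : Prop := RP_stmt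

end Pool.Agent.helper64.D2
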